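import Pool.Agent.MP_7332c2_co.Defs

open SimpleGraph

namespace Pool.Agent.MP_7332c2_co

variable {V W : Type*}

/-- Some copy of `H` in `G + xy` uses the edge `xy`. -/
def Uses (H : SimpleGraph W) (G : SimpleGraph V) (x y : V) : Prop :=
  ∃ f : H.Copy (G ⊔ edge x y), ∃ a b : W, H.Adj a b ∧ f a = x ∧ f b = y

theorem copyCount_lt_of_uses [Fintype V] (H : SimpleGraph W) (G : SimpleGraph V) {x y : V}
    (hn : ¬ G.Adj x y) (hU : Uses H G x y) :
    G.copyCount H < (G ⊔ edge x y).copyCount H := by
  classical
  obtain ⟨f, a, b, hab, hfa, hfb⟩ := hU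
  unfold copyCount
  have hle : G ≤ G ⊔ edge x y := le_sup_left
  let i : G.Subgraph → (G ⊔ edge x y).Subgraph := fun K =>
    { verts := K.verts
      Adj := K.Adj
      adj_sub := fun h => hle (K.adj_sub h)
      edge_vert := fun h => K.edge_vert h
      symm := K.symm }
  have hi : Function.Injective i := by
    intro K L h
    have h1 := congrArg SimpleGraph.Subgraph.verts h
    have h2 := congrArg SimpleGraph.Subgraph.Adj h
    exact SimpleGraph.Subgraph.ext h1 h2
  rw [← Finset.card_image_of_injective _ hi]
  apply Finset.card_lt_card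
  rw [Finset.ssubset_iff_of_subset]
  · refine ⟨f.toSubgraph, ?_, ?_⟩
    · simp only [Finset.mem_filter, Finset.mem_univ, true_and]
      exact ⟨f.isoToSubgraph⟩
    · intro hmem
      simp only [Finset.mem_image, Finset.mem_filter, Finset.mem_univ, true_and] at hmem
      obtain ⟨K, -, hK⟩ := hmem
      apply hn
      have h3 : f.toSubgraph.Adj x y := by
        simp only [Copy.toSubgraph, Subgraph.map_adj, Relation.map_apply]
        exact ⟨a, b, hab, hfa, hfb⟩
      have h4 : (i K).Adj x y := by rw [hK]; exact h3
      exact K.adj_sub h4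
  · intro L hL
    simp only [Finset.mem_image, Finset.mem_filter, Finset.mem_univ, true_and] at hL ⊢
    obtain ⟨K, ⟨e⟩, rfl⟩ := hL
    exact ⟨e⟩

theorem uses_of_copyCount_lt [Fintype V] (H : SimpleGraph W) (G : SimpleGraph V) {x y : V}
    (hlt : G.copyCount H < (G ⊔ edge x y).copyCount H) : Uses H G x y := by
  classical
  by_contra hU
  apply absurd hlt
  rw [not_lt]
  unfold copyCount
  -- every copy in `G + xy` is a copy in `G`
  have key : ∀ K : (G ⊔ edge x y).Subgraph, Nonempty (H ≃g K.coe) → ¬ K.Adj x y := by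
    rintro K ⟨e⟩ hadj
    apply hU
    have hx : x ∈ K.verts := K.edge_vert hadj
    have hy : y ∈ K.verts := K.edge_vert hadj.symm
    refine ⟨⟨K.hom.comp e.toHom, Subgraph.hom_injective.comp e.injective⟩,
      e.symm ⟨x, hx⟩, e.symm ⟨y, hy⟩, ?_, ?_, ?_⟩
    · rw [SimpleGraph.Iso.map_adj_iff]
      exact hadj
    · show ((e (e.symm ⟨x, hx⟩) : K.verts) : V) = x
      rw [RelIso.apply_symm_apply]
    · show ((e (e.symm ⟨y, hy⟩) : K.verts) : V) = y
      rw [RelIso.apply_symm_apply]
  have hsub : ∀ K : (G ⊔ edge x y).Subgraph, ¬ K.Adj x y → ∀ v w, K.Adj v w → G.Adj v w := by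
    intro K hK v w hvw
    have h1 := K.adj_sub hvw
    rw [sup_adj, edge_adj] at h1
    rcases h1 with h1 | ⟨h1, h2⟩
    · exact h1
    · exfalso
      rcases h1 with ⟨rfl, rfl⟩ | ⟨rfl, rfl⟩
      · exact hK hvw
      · exact hK hvw.symm
  let j : (G ⊔ edge x y).Subgraph → G.Subgraph := fun K =>
    if h : ¬ K.Adj x y then
      { verts := K.verts
        Adj := K.Adj
        adj_sub := fun h' => hsub K h _ _ h'
        edge_vert := fun h => K.edge_vert h
        symm := K.symm }
    else ⊥
  have hj : ∀ (K : (G ⊔ edge x y).Subgraph) (h : ¬ K.Adj x y), j K =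
      { verts := K.verts
        Adj := K.Adj
        adj_sub := fun h' => hsub K h _ _ h'
        edge_vert := fun h => K.edge_vert h
        symm := K.symm } := fun K h => dif_pos h
  apply Finset.card_le_card_of_injOn j
  · intro K hK
    rw [Finset.mem_coe, Finset.mem_filter] at hK ⊢
    refine ⟨Finset.mem_univ _, ?_⟩
    rw [hj K (key K hK.2)]
    obtain ⟨e⟩ := hK.2
    exact ⟨e⟩
  · intro K hK L hL h
    rw [Finset.mem_coe, Finset.mem_filter] at hK hL
    rw [hj K (key K hK.2), hj L (key L hL.2)] at h
    have h1 := congrArg SimpleGraph.Subgraph.verts h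
    have h2 := congrArg SimpleGraph.Subgraph.Adj h
    exact SimpleGraph.Subgraph.ext h1 h2

theorem infect_adj [Fintype V] (H : SimpleGraph W) (G : SimpleGraph V) (x y : V) :
    (infect H G).Adj x y ↔ G.Adj x y ∨ (x ≠ y ∧ ¬ G.Adj x y ∧ Uses H G x y) := by
  unfold infect
  rw [sup_adj, fromEdgeSet_adj]
  constructor
  · rintro (h | ⟨h1, h2⟩)
    · exact Or.inl h
    · by_cases hG : G.Adj x y
      · exact Or.inl hG
      · exact Or.inr ⟨h2, hG, uses_of_copyCount_lt H G h1⟩
  · rintro (h | ⟨h1, h2, h3⟩)
    · exact Or.inl h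
    · exact Or.inr ⟨copyCount_lt_of_uses H G h2 h3, h1⟩

theorem le_infect [Fintype V] (H : SimpleGraph W) (G : SimpleGraph V) : G ≤ infect H G :=
  le_sup_left

theorem process_succ [Fintype V] (H : SimpleGraph W) (G : SimpleGraph V) (i : ℕ) :
    process H G (i + 1) = infect H (process H G i) := by
  unfold process
  rw [Function.iterate_succ_apply']

theorem process_zero [Fintype V] (H : SimpleGraph W) (G : SimpleGraph V) :
    process H G 0 = G := rfl

theorem process_mono [Fintype V] (H : SimpleGraph W) (G : SimpleGraph V) :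
    Monotone (process H G) := by
  apply monotone_nat_of_le_succ
  intro n
  rw [process_succ]
  exact le_infect _ _

theorem process_stable [Fintype V] (H : SimpleGraph W) (G : SimpleGraph V) {t : ℕ}
    (h : process H G t = process H G (t + 1)) (j : ℕ) : process H G (t + j) = process H G t := by
  induction j with
  | zero => rfl
  | succ j ih =>
    rw [← Nat.add_assoc, process_succ, ih, ← process_succ, ← h]

theorem runningTime_le [Fintype V] (H : SimpleGraph W) (G : SimpleGraph V) {t : ℕ}
    (h : process H G t = process H G (t + 1)) : runningTime H G ≤ t :=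
  Nat.sInf_le h

theorem exists_stable [Fintype V] (H : SimpleGraph W) (G : SimpleGraph V) :
    ∃ t, process H G t = process H G (t + 1) := by
  obtain ⟨n, hn⟩ := WellFoundedGT.monotone_chain_condition (α := SimpleGraph V)
    ⟨process H G, process_mono H G⟩
  exact ⟨n, hn (n + 1) (Nat.le_succ n)⟩

theorem lt_runningTime [Fintype V] (H : SimpleGraph W) (G : SimpleGraph V) {t : ℕ}
    (h : ∀ s ≤ t, process H G s ≠ process H G (s + 1)) : t < runningTime H G := by
  unfold runningTime
  obtain ⟨m, hm⟩ := exists_stable H G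
  have hne : {t : ℕ | process H G t = process H G (t + 1)}.Nonempty := ⟨m, hm⟩
  have := Nat.sInf_mem hne
  by_contra hcon
  exact h _ (not_lt.1 hcon) this

/-- If the process is stable at some time `t` then it is stable at all times `≥ t`; hence, to
bound the running time from below it suffices to look at one time. -/
theorem le_runningTime [Fintype V] (H : SimpleGraph W) (G : SimpleGraph V) {t : ℕ}
    (h : process H G t ≠ process H G (t + 1)) : t < runningTime H G := by
  apply lt_runningTime
  intro s hs heq
  apply h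
  have h1 := process_stable H G heq (t - s)
  have h2 := process_stable H G heq (t + 1 - s)
  rw [show s + (t - s) = t by omega] at h1
  rw [show s + (t + 1 - s) = t + 1 by omega] at h2
  rw [h1, h2]

theorem runningTime_le_maxRunningTime (H : SimpleGraph W) {n : ℕ} (G : SimpleGraph (Fin n)) :
    runningTime H G ≤ maxRunningTime H n :=
  Finset.le_sup (f := fun G : SimpleGraph (Fin n) => runningTime H G) (Finset.mem_univ G)

theorem maxRunningTime_le (H : SimpleGraph W) {n B : ℕ}
    (h : ∀ G : SimpleGraph (Fin n), runningTime H G ≤ B) : maxRunningTime H n ≤ B :=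
  Finset.sup_le fun G _ => h G

end Pool.Agent.MP_7332c2_co
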