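import Pool.Agent.MP_7332c2_co.Core

open SimpleGraph

namespace Pool.Agent.MP_7332c2_co

variable {V : Type*}

/-- All pairs of distinct vertices of `A × B` are adjacent. -/
def Cross (G : SimpleGraph V) (A B : Set V) : Prop := ∀ x ∈ A, ∀ y ∈ B, x ≠ y → G.Adj x y

theorem Cross.swap {G : SimpleGraph V} {A B : Set V} (h : Cross G A B) : Cross G B A :=
  fun x hx y hy hne => (h y hy x hx hne.symm).symm

theorem Cross.mono {G G' : SimpleGraph V} (hle : G ≤ G') {A B : Set V} (h : Cross G A B) :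
    Cross G' A B :=
  fun x hx y hy hne => hle (h x hx y hy hne)

theorem big1 [Finite V] {G : SimpleGraph V} {A B : Set V} (h : Cross G A B) {z z' : V}
    (hz : z ∈ B) (hz' : z' ∈ B) (hzz : G.Adj z z') (hA : 8 ≤ A.ncard) (hB : 3 ≤ B.ncard) :
    Cross (c6 G) A A := by
  intro x hx y hy hxy
  by_cases hxB : x ∈ B
  · exact le_c6 G (h y hy x hxB hxy.symm).symm
  by_cases hyB : y ∈ B
  · exact le_c6 G (h x hx y hyB hxy)
  obtain ⟨q, hq, hqL⟩ := exists_avoid B [z, z'] (by simp; omega)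
  obtain ⟨p, hp, hpL⟩ := exists_avoid A [x, y, z, z', q] (by simp; omega)
  simp only [List.mem_cons, List.not_mem_nil, or_false, not_or] at hqL hpL
  have e1 : x ≠ z := fun h => hxB (h ▸ hz)
  have e2 : x ≠ z' := fun h => hxB (h ▸ hz')
  have e3 : x ≠ q := fun h => hxB (h ▸ hq)
  have e4 : y ≠ z := fun h => hyB (h ▸ hz)
  have e5 : y ≠ z' := fun h => hyB (h ▸ hz')
  have e6 : y ≠ q := fun h => hyB (h ▸ hq)
  have e7 := hzz.ne
  refine Or.inr ⟨z, z', p, q, h x hx z hz e1, hzz, (h p hp z' hz' hpL.2.2.2.1).symm,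
    h p hp q hq hpL.2.2.2.2, (h y hy q hq e6).symm, ?_⟩
  simp only [List.nodup_cons, List.mem_cons, List.not_mem_nil, or_false, not_or,
    not_false_eq_true, List.nodup_nil, and_true]
  grind

theorem big2 [Finite V] {G : SimpleGraph V} {A B : Set V} (h : Cross G A B)
    (hAA : Cross G A A) (hA : 8 ≤ A.ncard) : Cross (c6 G) B B := by
  intro x hx y hy hxy
  by_cases hxA : x ∈ A
  · exact le_c6 G (h x hxA y hy hxy)
  by_cases hyA : y ∈ A
  · exact le_c6 G (h y hyA x hx hxy.symm).symm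
  obtain ⟨p1, hp1, -⟩ := exists_avoid A [] (by simp; omega)
  obtain ⟨p2, hp2, hL2⟩ := exists_avoid A [p1] (by simp; omega)
  obtain ⟨p3, hp3, hL3⟩ := exists_avoid A [p1, p2] (by simp; omega)
  obtain ⟨p4, hp4, hL4⟩ := exists_avoid A [p1, p2, p3] (by simp; omega)
  simp only [List.mem_cons, List.not_mem_nil, or_false, not_or] at hL2 hL3 hL4
  have hxp : ∀ p ∈ A, x ≠ p := fun p hp h => hxA (h ▸ hp)
  have hyp : ∀ p ∈ A, y ≠ p := fun p hp h => hyA (h ▸ hp)
  have f1 := hxp p1 hp1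
  have f2 := hxp p2 hp2
  have f3 := hxp p3 hp3
  have f4 := hxp p4 hp4
  have g1 := hyp p1 hp1
  have g2 := hyp p2 hp2
  have g3 := hyp p3 hp3
  have g4 := hyp p4 hp4
  refine Or.inr ⟨p1, p2, p3, p4, (h p1 hp1 x hx f1.symm).symm, hAA p1 hp1 p2 hp2 (Ne.symm hL2),
    hAA p2 hp2 p3 hp3 (Ne.symm hL3.2), hAA p3 hp3 p4 hp4 (Ne.symm hL4.2.2),
    h p4 hp4 y hy g4.symm, ?_⟩
  simp only [List.nodup_cons, List.mem_cons, List.not_mem_nil, or_false, not_or,
    not_false_eq_true, List.nodup_nil, and_true]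
  grind

theorem big3 [Finite V] {G : SimpleGraph V} {A B : Set V} (h : Cross G A B)
    (hdisj : Disjoint A B) {z z' : V} (hz : z ∈ A) (hz' : z' ∈ A) (hzz : G.Adj z z')
    (hA : 3 ≤ A.ncard) (hB : 3 ≤ B.ncard) : Cross (c6 G) B B := by
  intro x hx y hy hxy
  obtain ⟨q, hq, hqL⟩ := exists_avoid A [z, z'] (by simp; omega)
  obtain ⟨p, hp, hpL⟩ := exists_avoid B [x, y] (by simp; omega)
  simp only [List.mem_cons, List.not_mem_nil, or_false, not_or] at hqL hpL
  have hne : ∀ s ∈ A, ∀ t ∈ B, s ≠ t := fun s hs t ht h =>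
    Set.disjoint_left.1 hdisj hs (h ▸ ht)
  have e1 := hne z hz x hx
  have e2 := hne z hz y hy
  have e3 := hne z hz p hp
  have e4 := hne z' hz' x hx
  have e5 := hne z' hz' y hy
  have e6 := hne z' hz' p hp
  have e7 := hne q hq x hx
  have e8 := hne q hq y hy
  have e9 := hne q hq p hp
  have e10 := hzz.ne
  refine Or.inr ⟨z, z', p, q, (h z hz x hx e1).symm, hzz, h z' hz' p hp e6,
    (h q hq p hp e9).symm, h q hq y hy e8, ?_⟩
  simp only [List.nodup_cons, List.mem_cons, List.not_mem_nil, or_false, not_or,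
    not_false_eq_true, List.nodup_nil, and_true]
  grind

theorem closedOn_of_cross {G : SimpleGraph V} {A B : Set V} (hC : AdjClosed (A ∪ B) G)
    (hAA : Cross G A A) (hBB : Cross G B B) (hAB : Cross G A B) : ClosedOn (A ∪ B) G := by
  intro x hx y hP
  have hy : y ∈ A ∪ B := (adjClosed_c6 hC) x hx y (Or.inr hP)
  have hne := hP.ne
  rcases hx with hx | hx <;> rcases hy with hy | hy
  · exact hAA x hx y hy hne
  · exact hAB x hx y hy hne
  · exact hAB.swap x hx y hy hne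
  · exact hBB x hx y hy hne

/-- An edge inside a class makes the whole component complete. -/
theorem odd_closed [Finite V] {G : SimpleGraph V} {A B : Set V} (hC : AdjClosed (A ∪ B) G)
    (hAB : Cross G A B) (hA : 8 ≤ A.ncard) (hB : 3 ≤ B.ncard)
    (hodd : (∃ z ∈ A, ∃ z' ∈ A, G.Adj z z') ∨ (∃ z ∈ B, ∃ z' ∈ B, G.Adj z z')) :
    ClosedOn (A ∪ B) (c6^[3] G) := by
  -- an edge inside `B` suffices
  have key : ∀ G' : SimpleGraph V, AdjClosed (A ∪ B) G' → Cross G' A B →
      (∃ z ∈ B, ∃ z' ∈ B, G'.Adj z z') → ClosedOn (A ∪ B) (c6^[2] G') := by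
    rintro G' hC' hAB' ⟨z, hz, z', hz', hzz⟩
    have h1 : Cross (c6 G') A A := big1 hAB' hz hz' hzz hA hB
    have h2 : Cross (c6 (c6 G')) B B := big2 (hAB'.mono (le_c6 _)) h1 hA
    exact closedOn_of_cross (adjClosed_iter hC' 2) (h1.mono (le_c6 _)) h2
      ((hAB'.mono (le_c6 _)).mono (le_c6 _))
  have key' : (∃ z ∈ B, ∃ z' ∈ B, G.Adj z z') → ClosedOn (A ∪ B) (c6^[3] G) := fun h =>
    closedOn_of_le hC (show 2 ≤ 3 by omega) (key G hC hAB h)
  rcases hodd with ⟨z, hz, z', hz', hzz⟩ | h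
  · by_cases hdisj : Disjoint A B
    · have h1 : Cross (c6 G) B B := big3 hAB hdisj hz hz' hzz (by omega) hB
      obtain ⟨p, hp, -⟩ := exists_avoid B [] (by simp; omega)
      obtain ⟨q, hq, hqL⟩ := exists_avoid B [p] (by simp; omega)
      simp only [List.mem_cons, List.not_mem_nil, or_false] at hqL
      have := key (c6 G) (adjClosed_c6 hC) (hAB.mono (le_c6 _))
        ⟨p, hp, q, hq, h1 p hp q hq (Ne.symm hqL)⟩
      exact this
    · rw [Set.not_disjoint_iff] at hdisj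
      obtain ⟨w, hwA, hwB⟩ := hdisj
      obtain ⟨q, hq, hqL⟩ := exists_avoid B [w] (by simp; omega)
      simp only [List.mem_cons, List.not_mem_nil, or_false] at hqL
      exact key' ⟨w, hwB, q, hq, hAB w hwA q hq (Ne.symm hqL)⟩
  · exact key' h

/-- Without edges inside the classes, the component is complete bipartite and stable. -/
theorem even_closed {G : SimpleGraph V} {A B : Set V} (hC : AdjClosed (A ∪ B) G)
    (hAB : Cross G A B) (hnA : ∀ z ∈ A, ∀ z' ∈ A, ¬ G.Adj z z')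
    (hnB : ∀ z ∈ B, ∀ z' ∈ B, ¬ G.Adj z z') : ClosedOn (A ∪ B) G := by
  have stepA : ∀ x ∈ A, ∀ y, G.Adj x y → y ∈ B := by
    intro x hx y hxy
    rcases hC x (Or.inl hx) y hxy with hy | hy
    · exact absurd hxy (hnA x hx y hy)
    · exact hy
  have stepB : ∀ x ∈ B, ∀ y, G.Adj x y → y ∈ A := by
    intro x hx y hxy
    rcases hC x (Or.inr hx) y hxy with hy | hy
    · exact hy
    · exact absurd hxy (hnB x hx y hy)
  rintro x hx y hP
  have hne := hP.ne
  obtain ⟨a, b, c, d, h1, h2, h3, h4, h5, -⟩ := hP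
  rcases hx with hx | hx
  · have hy := stepA _ (stepB _ (stepA _ (stepB _ (stepA x hx a h1) b h2) c h3) d h4) y h5
    exact hAB x hx y hy hne
  · have hy := stepB _ (stepA _ (stepB _ (stepA _ (stepB x hx a h1) b h2) c h3) d h4) y h5
    exact hAB.swap x hx y hy hne

theorem cross_closed [Finite V] {G : SimpleGraph V} {A B : Set V} (hC : AdjClosed (A ∪ B) G)
    (hAB : Cross G A B) (hA : 3 ≤ A.ncard) (hB : 3 ≤ B.ncard) (hcard : 15 ≤ (A ∪ B).ncard) :
    ClosedOn (A ∪ B) (c6^[3] G) := by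
  by_cases hodd : (∃ z ∈ A, ∃ z' ∈ A, G.Adj z z') ∨ (∃ z ∈ B, ∃ z' ∈ B, G.Adj z z')
  · have hu := Set.ncard_union_le A B
    by_cases h8 : 8 ≤ A.ncard
    · exact odd_closed hC hAB h8 hB hodd
    · have h8' : 8 ≤ B.ncard := by omega
      rw [Set.union_comm]
      rw [Set.union_comm] at hC
      exact odd_closed hC hAB.swap h8' hA hodd.symm
  · push Not at hodd
    exact closedOn_of_le hC (Nat.zero_le 3) (even_closed hC hAB hodd.1 hodd.2)

end Pool.Agent.MP_7332c2_co
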