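import Pool.Agent.MP_7332c2_co.Basic

open SimpleGraph

namespace Pool.Agent.MP_7332c2_co

variable {V : Type*}

/-- `x` and `y` are the ends of a path with five edges. -/
def P6 (G : SimpleGraph V) (x y : V) : Prop :=
  ∃ a b c d, G.Adj x a ∧ G.Adj a b ∧ G.Adj b c ∧ G.Adj c d ∧ G.Adj d y ∧
    [x, a, b, c, d, y].Nodup

theorem P6.symm {G : SimpleGraph V} {x y : V} (h : P6 G x y) : P6 G y x := by
  obtain ⟨a, b, c, d, h1, h2, h3, h4, h5, hn⟩ := h
  refine ⟨d, c, b, a, h5.symm, h4.symm, h3.symm, h2.symm, h1.symm, ?_⟩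
  have := List.nodup_reverse.2 hn
  simpa using this

theorem P6.ne {G : SimpleGraph V} {x y : V} (h : P6 G x y) : x ≠ y := by
  obtain ⟨a, b, c, d, h1, h2, h3, h4, h5, hn⟩ := h
  rintro rfl
  simp at hn

theorem P6.mono {G G' : SimpleGraph V} (hle : G ≤ G') {x y : V} (h : P6 G x y) : P6 G' x y := by
  obtain ⟨a, b, c, d, h1, h2, h3, h4, h5, hn⟩ := h
  exact ⟨a, b, c, d, hle h1, hle h2, hle h3, hle h4, hle h5, hn⟩

/-- One round of the process which joins the ends of all paths with five edges. -/
def c6 (G : SimpleGraph V) : SimpleGraph V where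
  Adj x y := G.Adj x y ∨ P6 G x y
  symm := ⟨by
    rintro x y (h | h)
    · exact Or.inl h.symm
    · exact Or.inr h.symm⟩
  loopless := ⟨by
    rintro x (h | h)
    · exact G.irrefl h
    · exact h.ne rfl⟩

theorem c6_adj {G : SimpleGraph V} {x y : V} : (c6 G).Adj x y ↔ G.Adj x y ∨ P6 G x y := Iff.rfl

theorem le_c6 (G : SimpleGraph V) : G ≤ c6 G := fun _ _ h => Or.inl h

theorem c6_iter_succ (G : SimpleGraph V) (n : ℕ) : c6^[n + 1] G = c6 (c6^[n] G) :=
  Function.iterate_succ_apply' c6 n G

theorem c6_iter_mono (G : SimpleGraph V) : Monotone fun n => c6^[n] G := by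
  apply monotone_nat_of_le_succ
  intro n
  rw [c6_iter_succ]
  exact le_c6 _

theorem c6_iter_add (G : SimpleGraph V) (m n : ℕ) : c6^[m] (c6^[n] G) = c6^[m + n] G :=
  (Function.iterate_add_apply c6 m n G).symm

/-- There is a walk with at most `k` edges from `x` to `y`. -/
def Near (G : SimpleGraph V) (k : ℕ) (x y : V) : Prop := ∃ p : G.Walk x y, p.length ≤ k

theorem shrink_path {G : SimpleGraph V} (l : ℕ) : ∀ (x y : V) (p : G.Walk x y), p.IsPath →
    p.length = l → Near (c6 G) (l / 5 + l % 5) x y := by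
  induction l using Nat.strong_induction_on with
  | _ l ih =>
    intro x y p hp hl
    by_cases h5 : l < 5
    · refine ⟨p.mapLe (le_c6 G), ?_⟩
      rw [Walk.length_map, hl]
      omega
    · have hlen : 5 ≤ p.length := by omega
      have hinj := hp.getVert_injOn
      have hadj : ∀ i, i < 5 → G.Adj (p.getVert i) (p.getVert (i + 1)) := fun i hi =>
        p.adj_getVert_succ (by omega)
      have hne : ∀ i j, i ≤ 5 → j ≤ 5 → i ≠ j → p.getVert i ≠ p.getVert j := by
        intro i j hi hj hij heq
        exact hij (hinj (by simp; omega) (by simp; omega) heq)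
      have hP : P6 G (p.getVert 0) (p.getVert 5) := by
        refine ⟨p.getVert 1, p.getVert 2, p.getVert 3, p.getVert 4, hadj 0 (by omega),
          hadj 1 (by omega), hadj 2 (by omega), hadj 3 (by omega), hadj 4 (by omega), ?_⟩
        simp only [List.nodup_cons, List.mem_cons, List.not_mem_nil, or_false, not_or,
          not_false_eq_true, List.nodup_nil, and_true]
        refine ⟨⟨?_, ?_, ?_, ?_, ?_⟩, ⟨?_, ?_, ?_, ?_⟩, ⟨?_, ?_, ?_⟩, ⟨?_, ?_⟩, ?_⟩ <;>
          exact hne _ _ (by omega) (by omega) (by omega)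
      rw [Walk.getVert_zero] at hP
      have hd : (p.drop 5).IsPath := hp.drop 5
      obtain ⟨q, hq⟩ := ih (l - 5) (by omega) _ _ (p.drop 5) hd (by rw [Walk.drop_length, hl])
      refine ⟨Walk.cons (c6_adj.2 (Or.inr hP)) q, ?_⟩
      rw [Walk.length_cons]
      omega

theorem shrink_near {G : SimpleGraph V} {s : ℕ} {x y : V} (h : Near G (5 ^ (s + 1) + 3) x y) :
    Near (c6 G) (5 ^ s + 3) x y := by
  classical
  obtain ⟨p, hp⟩ := h
  have h1 := shrink_path p.bypass.length x y p.bypass p.bypass_isPath rfl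
  have h2 := p.length_bypass_le_length
  obtain ⟨q, hq⟩ := h1
  refine ⟨q, hq.trans ?_⟩
  rw [pow_succ] at hp
  omega

theorem shrink_iter {s : ℕ} : ∀ {G : SimpleGraph V} {x y : V}, Near G (5 ^ s + 3) x y →
    Near (c6^[s] G) 4 x y := by
  induction s with
  | zero => intro G x y h; simpa using h
  | succ s ih =>
    intro G x y h
    rw [Function.iterate_succ_apply]
    exact ih (shrink_near h)

theorem near_of_reachable [Fintype V] {G : SimpleGraph V} {s : ℕ} (hs : Fintype.card V ≤ 5 ^ s)
    {x y : V} (h : G.Reachable x y) : Near G (5 ^ s + 3) x y := by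
  classical
  obtain ⟨p⟩ := h
  refine ⟨p.bypass, ?_⟩
  have := p.bypass_isPath.length_lt
  omega

theorem reachable_of_c6 {G : SimpleGraph V} {x y : V} (h : (c6 G).Adj x y) : G.Reachable x y := by
  rcases h with h | ⟨a, b, c, d, h1, h2, h3, h4, h5, -⟩
  · exact h.reachable
  · exact h1.reachable.trans (h2.reachable.trans (h3.reachable.trans (h4.reachable.trans
      h5.reachable)))

theorem reachable_c6_iff {G : SimpleGraph V} {x y : V} :
    (c6 G).Reachable x y ↔ G.Reachable x y := by
  constructor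
  · rintro ⟨p⟩
    induction p with
    | nil => exact Reachable.refl _
    | cons h _ ih => exact (reachable_of_c6 h).trans ih
  · exact fun h => h.mono (le_c6 G)

theorem reachable_iter_iff {G : SimpleGraph V} {x y : V} (n : ℕ) :
    (c6^[n] G).Reachable x y ↔ G.Reachable x y := by
  induction n with
  | zero => rfl
  | succ n ih => rw [c6_iter_succ, reachable_c6_iff, ih]

/-- `C` is a union of connected components on which the process is stable. -/
def ClosedOn (C : Set V) (G : SimpleGraph V) : Prop := ∀ x ∈ C, ∀ y, P6 G x y → G.Adj x y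

/-- `C` is closed under adjacency. -/
def AdjClosed (C : Set V) (G : SimpleGraph V) : Prop := ∀ x ∈ C, ∀ y, G.Adj x y → y ∈ C

theorem adjClosed_c6 {C : Set V} {G : SimpleGraph V} (h : AdjClosed C G) : AdjClosed C (c6 G) := by
  rintro x hx y (hxy | ⟨a, b, c, d, h1, h2, h3, h4, h5, -⟩)
  · exact h x hx y hxy
  · exact h _ (h _ (h _ (h _ (h _ hx _ h1) _ h2) _ h3) _ h4) _ h5

theorem adjClosed_iter {C : Set V} {G : SimpleGraph V} (h : AdjClosed C G) (n : ℕ) :
    AdjClosed C (c6^[n] G) := by
  induction n with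
  | zero => exact h
  | succ n ih => rw [c6_iter_succ]; exact adjClosed_c6 ih

theorem adjClosed_reachable {C : Set V} {G : SimpleGraph V} (h : AdjClosed C G) {x y : V}
    (hx : x ∈ C) (hxy : G.Reachable x y) : y ∈ C := by
  obtain ⟨p⟩ := hxy
  induction p with
  | nil => exact hx
  | cons hadj _ ih => exact ih (h _ hx _ hadj)

theorem closedOn_c6_adj {C : Set V} {G : SimpleGraph V} (hcl : ClosedOn C G) {x y : V}
    (hx : x ∈ C) : (c6 G).Adj x y ↔ G.Adj x y :=
  ⟨fun h => h.elim id (hcl x hx y), fun h => Or.inl h⟩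

theorem closedOn_succ {C : Set V} {G : SimpleGraph V} (hC : AdjClosed C G) (hcl : ClosedOn C G) :
    ClosedOn C (c6 G) := by
  rintro x hx y ⟨a, b, c, d, h1, h2, h3, h4, h5, hn⟩
  rw [closedOn_c6_adj hcl hx] at h1
  have ha := hC x hx a h1
  rw [closedOn_c6_adj hcl ha] at h2
  have hb := hC a ha b h2
  rw [closedOn_c6_adj hcl hb] at h3
  have hc := hC b hb c h3
  rw [closedOn_c6_adj hcl hc] at h4
  have hd := hC c hc d h4
  rw [closedOn_c6_adj hcl hd] at h5
  exact Or.inl (hcl x hx y ⟨a, b, c, d, h1, h2, h3, h4, h5, hn⟩)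

theorem closedOn_iter {C : Set V} {G : SimpleGraph V} (hC : AdjClosed C G) (hcl : ClosedOn C G)
    (n : ℕ) : ClosedOn C (c6^[n] G) := by
  induction n with
  | zero => exact hcl
  | succ n ih => rw [c6_iter_succ]; exact closedOn_succ (adjClosed_iter hC n) ih

theorem closedOn_of_le {C : Set V} {G : SimpleGraph V} (hC : AdjClosed C G) {m n : ℕ}
    (hmn : m ≤ n) (hcl : ClosedOn C (c6^[m] G)) : ClosedOn C (c6^[n] G) := by
  have := closedOn_iter (adjClosed_iter hC m) hcl (n - m)
  rwa [c6_iter_add, show n - m + m = n by omega] at this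

/-- Avoiding a short list inside a set with many elements. -/
theorem exists_avoid [Finite V] (S : Set V) (L : List V) (h : L.length < S.ncard) :
    ∃ p ∈ S, p ∉ L := by
  classical
  by_contra hcon
  push Not at hcon
  have h1 : S ⊆ (L.toFinset : Set V) := by
    intro p hp
    simpa using hcon p hp
  have h2 : S.ncard ≤ L.toFinset.card := by
    rw [← Set.ncard_coe_finset]
    exact Set.ncard_le_ncard h1 (Set.toFinite _)
  have h3 := L.toFinset_card_le
  omega

/-- Small components are stable after boundedly many rounds. -/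
theorem small_closed [Finite V] {C : Set V} {G : SimpleGraph V} (hC : AdjClosed C G)
    (hcard : C.ncard ≤ 14) : ClosedOn C (c6^[200] G) := by
  by_contra hcon
  have hnot : ∀ j, j ≤ 200 → ¬ ClosedOn C (c6^[j] G) := fun j hj hcl =>
    hcon (closedOn_of_le hC hj hcl)
  let E : ℕ → Set (V × V) := fun j => {q | q ∈ C ×ˢ C ∧ (c6^[j] G).Adj q.1 q.2}
  have hE : ∀ j, j ≤ 200 → j ≤ (E j).ncard := by
    intro j
    induction j with
    | zero => intro _; exact Nat.zero_le _
    | succ j ih =>
      intro hj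
      have h1 := ih (by omega)
      have h2 := hnot j (by omega)
      unfold ClosedOn at h2
      push Not at h2
      obtain ⟨x, hx, y, hP, hna⟩ := h2
      have hss : E j ⊂ E (j + 1) := by
        rw [Set.ssubset_iff_of_subset]
        · refine ⟨(x, y), ⟨⟨hx, ?_⟩, ?_⟩, ?_⟩
          · have : (c6^[j + 1] G).Adj x y := by rw [c6_iter_succ]; exact Or.inr hP
            exact (adjClosed_iter hC (j + 1)) x hx y this
          · show (c6^[j + 1] G).Adj x y
            rw [c6_iter_succ]; exact Or.inr hP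
          · rintro ⟨_, h⟩
            exact hna h
        · rintro q ⟨hq1, hq2⟩
          exact ⟨hq1, c6_iter_mono G (Nat.le_succ j) hq2⟩
      have := Set.ncard_lt_ncard hss (Set.toFinite _)
      omega
  have h1 := hE 200 le_rfl
  have h2 : (E 200).ncard ≤ (C ×ˢ C).ncard := Set.ncard_le_ncard (fun q hq => hq.1) (Set.toFinite _)
  rw [Set.ncard_prod] at h2
  have h3 : C.ncard * C.ncard ≤ 14 * 14 := Nat.mul_le_mul hcard hcard
  omega

end Pool.Agent.MP_7332c2_co
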