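import Pool.Agent.MP_7332c2_co.Big

open SimpleGraph

namespace Pool.Agent.MP_7332c2_co

variable {V : Type*}

theorem large_closed [Finite V] {D : SimpleGraph V} {C : Set V} (hC : AdjClosed C D)
    (hconn : ∀ x ∈ C, ∀ y ∈ C, Near D 4 x y) (hcard : 15 ≤ C.ncard) :
    ClosedOn C (c6^[11] D) := by
  by_cases h0 : ClosedOn C D
  · exact closedOn_of_le hC (Nat.zero_le 11) h0
  unfold ClosedOn at h0
  push Not at h0
  obtain ⟨x, hx, y, ⟨a, b, c, d, h1, h2, h3, h4, h5, hn⟩, -⟩ := h0
  -- the six vertices form a cycle after one round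
  have ha := hC x hx a h1
  have hb := hC a ha b h2
  have hc := hC b hb c h3
  have hd := hC c hc d h4
  have hy := hC d hd y h5
  have hP : P6 D x y := ⟨a, b, c, d, h1, h2, h3, h4, h5, hn⟩
  let u : Fin 6 → V := ![x, a, b, c, d, y]
  have huC : ∀ i, u i ∈ C := by
    intro i
    fin_cases i
    exacts [hx, ha, hb, hc, hd, hy]
  have hu : Function.Injective u := by
    have h := List.nodup_ofFn (f := u)
    apply h.1
    simpa [u, List.ofFn_succ] using hn
  have l1 := le_c6 D
  have hcyc : ∀ i, (c6 D).Adj (u i) (u (i + 1)) := by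
    intro i
    fin_cases i
    · exact l1 h1
    · exact l1 h2
    · exact l1 h3
    · exact l1 h4
    · exact l1 h5
    · exact Or.inr hP.symm
  -- an edge from the cycle to another vertex
  obtain ⟨w, hw, hwL⟩ := exists_avoid C [x, a, b, c, d, y] (by simp; omega)
  obtain ⟨p, -⟩ := hconn x hx w hw
  obtain ⟨e, -, he1, he2⟩ := p.exists_boundary_dart (Set.range u) ⟨0, rfl⟩ (by
    rintro ⟨i, hi⟩
    apply hwL
    rw [← hi]
    fin_cases i <;> simp [u])
  obtain ⟨i, hi⟩ := he1
  let u' : Fin 6 → V := fun k => u (i + k)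
  have hu' : Function.Injective u' := fun j k h => add_left_cancel (hu h)
  have hcyc' : ∀ k, (c6 D).Adj (u' k) (u' (k + 1)) := by
    intro k
    have := hcyc (i + k)
    rwa [add_assoc] at this
  obtain ⟨α, β, hcore, hα, hβ⟩ := core_of_cycle hu' hcyc' (w := e.snd)
    (fun k hk => he2 ⟨i + k, hk.symm⟩) (by
      have h := e.adj.symm
      have h' : u' 0 = e.fst := by simp only [u', add_zero]; exact hi
      rw [h']
      exact l1 h)
  have hαC : ∀ i, α i ∈ C := by
    intro k
    obtain ⟨m, hm⟩ := hα k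
    rw [← hm]
    exact huC _
  have hβC : ∀ i, β i ∈ C := by
    intro k
    obtain ⟨m, hm⟩ := hβ k
    rw [← hm]
    exact huC _
  -- `hcore : Core (c6 (c6 (c6 D))) α β`
  have hD3 : c6 (c6 (c6 D)) = c6^[3] D := rfl
  rw [hD3] at hcore
  have hatt : ∀ w ∈ C, Att (c6^[7] D) α β w := by
    intro w hw
    obtain ⟨q, hq⟩ := hconn w hw (α 0) (hαC 0)
    have h0 : Att (c6^[3] D) α β (α 0) := Or.inr fun j => hcore.hab 0 j
    have hle : D ≤ c6^[3] D := c6_iter_mono D (Nat.zero_le 3)
    have := att_walk hcore h0 4 w (q.mapLe hle) (by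
      rw [Walk.length_map]; exact hq)
    rwa [c6_iter_add] at this
  have hcore7 : Core (c6^[7] D) α β := hcore.mono (c6_iter_mono D (show 3 ≤ 7 by omega))
  let A : Set V := {w | w ∈ C ∧ ∀ j, (c6^[7] D).Adj w (β j)}
  let B : Set V := {w | w ∈ C ∧ ∀ i, (c6^[7] D).Adj w (α i)}
  have hAB : A ∪ B = C := by
    ext w
    constructor
    · rintro (h | h)
      · exact h.1
      · exact h.1
    · intro hw
      rcases hatt w hw with h | h
      · exact Or.inr ⟨hw, h⟩
      · exact Or.inl ⟨hw, h⟩
  have hA3 : 3 ≤ A.ncard := by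
    have h1 : Set.range α ⊆ A := by
      rintro _ ⟨i, rfl⟩
      exact ⟨hαC i, fun j => hcore7.hab i j⟩
    have h2 := Set.ncard_le_ncard h1 (Set.toFinite _)
    rw [← Set.image_univ, Set.ncard_image_of_injective _ hcore.ha, Set.ncard_univ] at h2
    simpa using h2
  have hB3 : 3 ≤ B.ncard := by
    have h1 : Set.range β ⊆ B := by
      rintro _ ⟨i, rfl⟩
      exact ⟨hβC i, fun j => (hcore7.hab j i).symm⟩
    have h2 := Set.ncard_le_ncard h1 (Set.toFinite _)
    rw [← Set.image_univ, Set.ncard_image_of_injective _ hcore.hb, Set.ncard_univ] at h2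
    simpa using h2
  have hcross : Cross (c6^[8] D) A B := by
    intro w hw w' hw' hne
    rw [c6_iter_succ]
    exact cross hcore7 hne hw.2 hw'.2
  have hC8 : AdjClosed (A ∪ B) (c6^[8] D) := by
    rw [hAB]
    exact adjClosed_iter hC 8
  have := cross_closed hC8 hcross hA3 hB3 (by rw [hAB]; exact hcard)
  rw [hAB, c6_iter_add] at this
  exact this

/-- After `s + 200` rounds the `C_6`-process on at most `5 ^ s` vertices is stable. -/
theorem c6_main [Fintype V] (G : SimpleGraph V) {s : ℕ} (hs : Fintype.card V ≤ 5 ^ s) (x y : V)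
    (hP : P6 (c6^[s + 200] G) x y) : (c6^[s + 200] G).Adj x y := by
  let D := c6^[s] G
  let C : Set V := {z | D.Reachable x z}
  have hC : AdjClosed C D := by
    intro u hu v huv
    exact Reachable.trans hu huv.reachable
  have hconn : ∀ u ∈ C, ∀ v ∈ C, Near D 4 u v := by
    intro u hu v hv
    have h1 : D.Reachable u v := (Reachable.symm hu).trans hv
    have h2 : G.Reachable u v := (reachable_iter_iff s).1 h1
    exact shrink_iter (near_of_reachable hs h2)
  have hfin : ClosedOn C (c6^[200] D) := by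
    by_cases hcard : C.ncard ≤ 14
    · exact small_closed hC hcard
    · exact closedOn_of_le hC (show 11 ≤ 200 by omega) (large_closed hC hconn (by omega))
  have hx : x ∈ C := Reachable.refl x
  have h3 : c6^[200] D = c6^[s + 200] G := by
    show c6^[200] (c6^[s] G) = _
    rw [c6_iter_add, Nat.add_comm]
  rw [h3] at hfin
  exact hfin x hx y hP

end Pool.Agent.MP_7332c2_co
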