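import Pool.Agent.MP_7332c2_co.C6

open SimpleGraph

namespace Pool.Agent.MP_7332c2_co

variable {V : Type*}

/-- A copy of `K_{3,3}`. -/
structure Core (G : SimpleGraph V) (a b : Fin 3 → V) : Prop where
  ha : Function.Injective a
  hb : Function.Injective b
  hab : ∀ i j, G.Adj (a i) (b j)

theorem Core.swap {G : SimpleGraph V} {a b : Fin 3 → V} (h : Core G a b) : Core G b a :=
  ⟨h.hb, h.ha, fun i j => (h.hab j i).symm⟩

theorem Core.mono {G G' : SimpleGraph V} (hle : G ≤ G') {a b : Fin 3 → V} (h : Core G a b) :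
    Core G' a b :=
  ⟨h.ha, h.hb, fun i j => hle (h.hab i j)⟩

theorem Core.ne {G : SimpleGraph V} {a b : Fin 3 → V} (h : Core G a b) (i j : Fin 3) :
    a i ≠ b j := (h.hab i j).ne

theorem core_of_cycle {G : SimpleGraph V} {u : Fin 6 → V} (hu : Function.Injective u)
    (hc : ∀ i, G.Adj (u i) (u (i + 1))) {w : V} (hw : ∀ i, w ≠ u i) (hw0 : G.Adj w (u 0)) :
    ∃ a b : Fin 3 → V, Core (c6 (c6 G)) a b ∧ (∀ i, a i ∈ Set.range u) ∧
      (∀ i, b i ∈ Set.range u) := by
  have h01 := hc 0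
  have h12 := hc 1
  have h23 := hc 2
  have h34 := hc 3
  have h45 := hc 4
  have h50 := hc 5
  simp only [Fin.isValue, Fin.reduceAdd] at h01 h12 h23 h34 h45 h50
  have e01 : u 0 ≠ u 1 := hu.ne (by decide)
  have e02 : u 0 ≠ u 2 := hu.ne (by decide)
  have e03 : u 0 ≠ u 3 := hu.ne (by decide)
  have e04 : u 0 ≠ u 4 := hu.ne (by decide)
  have e05 : u 0 ≠ u 5 := hu.ne (by decide)
  have e12 : u 1 ≠ u 2 := hu.ne (by decide)
  have e13 : u 1 ≠ u 3 := hu.ne (by decide)
  have e14 : u 1 ≠ u 4 := hu.ne (by decide)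
  have e15 : u 1 ≠ u 5 := hu.ne (by decide)
  have e23 : u 2 ≠ u 3 := hu.ne (by decide)
  have e24 : u 2 ≠ u 4 := hu.ne (by decide)
  have e25 : u 2 ≠ u 5 := hu.ne (by decide)
  have e34 : u 3 ≠ u 4 := hu.ne (by decide)
  have e35 : u 3 ≠ u 5 := hu.ne (by decide)
  have e45 : u 4 ≠ u 5 := hu.ne (by decide)
  have w0 := hw 0
  have w1 := hw 1
  have w2 := hw 2
  have w3 := hw 3
  have w4 := hw 4
  have w5 := hw 5
  have k4 : (c6 G).Adj w (u 4) := by
    refine Or.inr ⟨u 0, u 1, u 2, u 3, hw0, h01, h12, h23, h34, ?_⟩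
    simp [*, Ne.symm]
  have k2 : (c6 G).Adj w (u 2) := by
    refine Or.inr ⟨u 0, u 5, u 4, u 3, hw0, h50.symm, h45.symm, h34.symm, h23.symm, ?_⟩
    simp [*, Ne.symm]
  have l := le_c6 G
  have m14 : (c6 (c6 G)).Adj (u 1) (u 4) := by
    refine Or.inr ⟨u 2, w, u 0, u 5, l h12, k2.symm, l hw0, l h50.symm, l h45.symm, ?_⟩
    simp [*, Ne.symm]
  have m30 : (c6 (c6 G)).Adj (u 3) (u 0) := by
    refine Or.inr ⟨u 4, w, u 2, u 1, l h34, k4.symm, k2, l h12.symm, l h01.symm, ?_⟩
    simp [*, Ne.symm]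
  have m52 : (c6 (c6 G)).Adj (u 5) (u 2) := by
    refine Or.inr ⟨u 4, w, u 0, u 1, l h45.symm, k4.symm, l hw0, l h01, l h12, ?_⟩
    simp [*, Ne.symm]
  have ll : G ≤ c6 (c6 G) := (le_c6 G).trans (le_c6 _)
  refine ⟨![u 0, u 2, u 4], ![u 1, u 3, u 5], ⟨?_, ?_, ?_⟩, ?_, ?_⟩
  · intro i j
    fin_cases i <;> fin_cases j <;> simp [*, Ne.symm]
  · intro i j
    fin_cases i <;> fin_cases j <;> simp [*, Ne.symm]
  · intro i j
    fin_cases i <;> fin_cases j
    · exact ll h01
    · exact m30.symm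
    · exact ll h50.symm
    · exact ll h12.symm
    · exact ll h23
    · exact m52.symm
    · exact m14.symm
    · exact ll h34.symm
    · exact ll h45
  · intro i
    fin_cases i
    · exact ⟨0, rfl⟩
    · exact ⟨2, rfl⟩
    · exact ⟨4, rfl⟩
  · intro i
    fin_cases i
    · exact ⟨1, rfl⟩
    · exact ⟨3, rfl⟩
    · exact ⟨5, rfl⟩

/-- A vertex outside the core with a neighbour that is joined to all `a i` is joined to all `b j`
after one round. -/
theorem attach {G : SimpleGraph V} {a b : Fin 3 → V} (h : Core G a b) {w w' : V}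
    (hwa : ∀ i, w ≠ a i) (hwb : ∀ i, w ≠ b i) (hww : G.Adj w w') (hw' : ∀ i, G.Adj w' (a i))
    (j : Fin 3) : (c6 G).Adj w (b j) := by
  by_cases hj : b j = w'
  · rw [hj]; exact le_c6 G hww
  obtain ⟨l, hlj, hl⟩ : ∃ l : Fin 3, l ≠ j ∧ b l ≠ w' := by
    by_cases h1 : b (j + 1) = w'
    · refine ⟨j + 2, by fin_cases j <;> decide, ?_⟩
      rw [← h1]
      exact h.hb.ne (by fin_cases j <;> decide)
    · exact ⟨j + 1, by fin_cases j <;> decide, h1⟩
  have e1 : w ≠ w' := hww.ne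
  have e2 := hwa 0
  have e3 := hwb l
  have e4 := hwa 1
  have e5 := hwb j
  have e6 : w' ≠ a 0 := (hw' 0).ne
  have e7 : w' ≠ a 1 := (hw' 1).ne
  have e8 : a 0 ≠ a 1 := h.ha.ne (by decide)
  have e9 := h.ne 0 l
  have e10 := h.ne 0 j
  have e11 := h.ne 1 l
  have e12 := h.ne 1 j
  have e13 : b l ≠ b j := h.hb.ne hlj
  refine Or.inr ⟨w', a 0, b l, a 1, hww, hw' 0, h.hab 0 l, (h.hab 1 l).symm, h.hab 1 j, ?_⟩
  simp [*, Ne.symm]

/-- Joined to all `a i` or joined to all `b j`. -/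
def Att (G : SimpleGraph V) (a b : Fin 3 → V) (w : V) : Prop :=
  (∀ i, G.Adj w (a i)) ∨ (∀ j, G.Adj w (b j))

theorem Att.mono {G G' : SimpleGraph V} (hle : G ≤ G') {a b : Fin 3 → V} {w : V}
    (h : Att G a b w) : Att G' a b w := by
  rcases h with h | h
  · exact Or.inl fun i => hle (h i)
  · exact Or.inr fun i => hle (h i)

theorem att_step {G : SimpleGraph V} {a b : Fin 3 → V} (h : Core G a b) {w w' : V}
    (hww : G.Adj w w') (hw' : Att G a b w') : Att (c6 G) a b w := by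
  by_cases hwa : ∀ i, w ≠ a i
  · by_cases hwb : ∀ i, w ≠ b i
    · rcases hw' with hw' | hw'
      · exact Or.inr fun j => attach h hwa hwb hww hw' j
      · exact Or.inl fun j => attach h.swap hwb hwa hww hw' j
    · push Not at hwb
      obtain ⟨i, rfl⟩ := hwb
      exact Or.inl fun j => le_c6 G (h.hab j i).symm
  · push Not at hwa
    obtain ⟨i, rfl⟩ := hwa
    exact Or.inr fun j => le_c6 G (h.hab i j)

theorem att_walk {G : SimpleGraph V} {a b : Fin 3 → V} (h : Core G a b) {u : V}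
    (hu : Att G a b u) : ∀ (k : ℕ) (w : V) (p : G.Walk w u), p.length ≤ k →
    Att (c6^[k] G) a b w := by
  intro k
  induction k with
  | zero =>
    intro w p hp
    have hp0 : p.length = 0 := by omega
    have := Walk.eq_of_length_eq_zero hp0
    subst this
    exact hu
  | succ k ih =>
    intro w p hp
    cases p with
    | nil => exact hu.mono (c6_iter_mono G (Nat.zero_le (k + 1)))
    | cons hadj q =>
      rw [Walk.length_cons] at hp
      have h1 := ih _ q (by omega)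
      rw [c6_iter_succ]
      exact att_step (h.mono (c6_iter_mono G (Nat.zero_le k)))
        (c6_iter_mono G (Nat.zero_le k) hadj) h1

/-- Vertices of opposite classes are joined after one more round. -/
theorem cross {G : SimpleGraph V} {a b : Fin 3 → V} (h : Core G a b) {w w' : V} (hne : w ≠ w')
    (hw : ∀ j, G.Adj w (b j)) (hw' : ∀ i, G.Adj w' (a i)) : (c6 G).Adj w w' := by
  by_cases hwa : ∀ i, w ≠ a i
  · by_cases hwb : ∀ j, w' ≠ b j
    · have e1 := fun j => (hw j).ne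
      have e2 := fun i => (hw' i).ne
      have f1 := hwa 0
      have f2 := hwa 1
      have f3 := hwb 0
      have f4 := hwb 1
      have f5 := e1 0
      have f6 := e1 1
      have f7 := e2 0
      have f8 := e2 1
      have f9 : a 0 ≠ a 1 := h.ha.ne (by decide)
      have f10 : b 0 ≠ b 1 := h.hb.ne (by decide)
      have f11 := h.ne 0 0
      have f12 := h.ne 0 1
      have f13 := h.ne 1 0
      have f14 := h.ne 1 1
      refine Or.inr ⟨b 0, a 0, b 1, a 1, hw 0, (h.hab 0 0).symm, h.hab 0 1, (h.hab 1 1).symm,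
        (hw' 1).symm, ?_⟩
      simp [*, Ne.symm]
    · push Not at hwb
      obtain ⟨j, rfl⟩ := hwb
      exact le_c6 G (hw j)
  · push Not at hwa
    obtain ⟨i, rfl⟩ := hwa
    exact le_c6 G (hw' i).symm

end Pool.Agent.MP_7332c2_co
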