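import Mathlib

/-!
# Graph bootstrap percolation: definitions

The `H`-process on a finite graph `G`, its running time, the maximum running time `M_H(n)`,
and the graph `H^{u+}` obtained from `H` by attaching a pendant edge at `u`.
-/

namespace Pool.Agent.MP_7332c2_co

/-- One round of the `H`-process on `G`: we add to `G` every pair `e` of distinct vertices for which
`G + e` has more (not necessarily induced) copies of `H` than `G`.
Here `G.copyCount H` is Mathlib's number of subgraphs of `G` isomorphic to `H`, and
`SimpleGraph.fromEdgeSet` discards degenerate pairs. -/
noncomputable def infect {V W : Type*} [Fintype V] (H : SimpleGraph W) (G : SimpleGraph V) :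
    SimpleGraph V :=
  G ⊔ SimpleGraph.fromEdgeSet
    {e : Sym2 V | G.copyCount H < (G ⊔ SimpleGraph.fromEdgeSet {e}).copyCount H}

/-- The graph `G_i` of the `H`-process `G = G_0, G_1, G_2, …`. -/
noncomputable def process {V W : Type*} [Fintype V] (H : SimpleGraph W) (G : SimpleGraph V)
    (i : ℕ) : SimpleGraph V :=
  (infect H)^[i] G

/-- The running time `τ_H(G) = min {t : G_t = G_{t+1}}`. -/
noncomputable def runningTime {V W : Type*} [Fintype V] (H : SimpleGraph W)
    (G : SimpleGraph V) : ℕ :=
  sInf {t : ℕ | process H G t = process H G (t + 1)}

/-- The maximum running time `M_H(n)` over all graphs on `n` vertices. -/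
noncomputable def maxRunningTime {W : Type*} (H : SimpleGraph W) (n : ℕ) : ℕ :=
  Finset.univ.sup fun G : SimpleGraph (Fin n) => runningTime H G

/-- The graph `H^{u+}`: one new vertex `none` is added to `H` and joined to `u` only. -/
def addPendant {W : Type*} (H : SimpleGraph W) (u : W) : SimpleGraph (Option W) where
  Adj x y :=
    match x, y with
    | some a, some b => H.Adj a b
    | some a, none => a = u
    | none, some b => b = u
    | none, none => False
  symm := ⟨by
    rintro (_ | a) (_ | b) h
    · exact h
    · exact h
    · exact h
    · exact SimpleGraph.Adj.symm h⟩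
  loopless := ⟨by
    rintro (_ | a) h
    · exact h
    · exact H.irrefl h⟩

end Pool.Agent.MP_7332c2_co
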