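import Pool.Agent.MP_7332c2_co.Wheel

open SimpleGraph

namespace Pool.Agent.MP_7332c2_co

/-- The edges `x y`, `x < y`, of the ladder of wheels (without rungs): in block `i` the vertices
`5i, 5i+1, 5i+2, 5i+3, 5i+4` are `p_i, q_i, a_i, b_i, c_i`; the edges are `p_i a_i`, `a_i p_{i+1}`,
`q_i b_i`, `b_i q_{i+1}`, and the hub `c_i` is joined to `p_i, q_i, a_i, b_i, p_{i+1}, q_{i+1}`. -/
def relL (x y : ℕ) : Prop :=
  (y = x + 2 ∧ x % 5 ≤ 1) ∨ (y = x + 3 ∧ (x % 5 = 2 ∨ x % 5 = 3)) ∨
  (y % 5 = 4 ∧ x < y ∧ y ≤ x + 4) ∨ (x % 5 = 4 ∧ (y = x + 1 ∨ y = x + 2))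

/-- The symmetric version of `relL`. -/
def relS (x y : ℕ) : Prop := relL x y ∨ relL y x

theorem relS_dist {x y : ℕ} (h : relS x y) : x ≤ y + 4 ∧ y ≤ x + 4 := by
  unfold relS relL at h; omega

theorem nb4 {h a : ℕ} (h4 : h % 5 = 4) (ha : relS h a) :
    a + 4 = h ∨ a + 3 = h ∨ a + 2 = h ∨ a + 1 = h ∨ a = h + 1 ∨ a = h + 2 := by
  unfold relS relL at ha; omega

theorem nb0 {h a : ℕ} (h4 : h % 5 = 0) (ha : relS h a) :
    a = h + 2 ∨ a = h + 4 ∨ a + 3 = h ∨ a + 1 = h := by
  unfold relS relL at ha; omega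

theorem nb1 {h a : ℕ} (h4 : h % 5 = 1) (ha : relS h a) :
    a = h + 2 ∨ a = h + 3 ∨ a + 3 = h ∨ a + 2 = h := by
  unfold relS relL at ha; omega

theorem nb2 {h a : ℕ} (h4 : h % 5 = 2) (ha : relS h a) :
    a + 2 = h ∨ a = h + 3 ∨ a = h + 2 := by
  unfold relS relL at ha; omega

theorem nb3 {h a : ℕ} (h4 : h % 5 = 3) (ha : relS h a) :
    a + 2 = h ∨ a = h + 3 ∨ a = h + 1 := by
  unfold relS relL at ha; omega

/-- No vertex of the ladder without rungs has a path on four vertices in its neighbourhood. -/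
theorem no_four {h a b c d : ℕ} (ha : relS h a) (hb : relS h b) (hc : relS h c) (hd : relS h d)
    (hab : relS a b) (hbc : relS b c) (hcd : relS c d) (e1 : a ≠ b) (e2 : a ≠ c) (e3 : a ≠ d)
    (e4 : b ≠ c) (e5 : b ≠ d) (e6 : c ≠ d) : False := by
  have h5 : h % 5 = 0 ∨ h % 5 = 1 ∨ h % 5 = 2 ∨ h % 5 = 3 ∨ h % 5 = 4 := by omega
  rcases h5 with h5 | h5 | h5 | h5 | h5
  · have side : ∀ p q : ℕ, relS h p → relS h q → relS p q →
        ((p = h + 2 ∨ p = h + 4) ∧ (q = h + 2 ∨ q = h + 4)) ∨
        ((p + 3 = h ∨ p + 1 = h) ∧ (q + 3 = h ∨ q + 1 = h)) := by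
      intro p q hp hq hpq
      have kp := nb0 h5 hp
      have kq := nb0 h5 hq
      clear hp hq
      unfold relS relL at hpq
      omega
    have s1 := side a b ha hb hab
    have s2 := side b c hb hc hbc
    have s3 := side c d hc hd hcd
    clear side hab hbc hcd ha hb hc hd
    omega
  · have side : ∀ p q : ℕ, relS h p → relS h q → relS p q →
        ((p = h + 2 ∨ p = h + 3) ∧ (q = h + 2 ∨ q = h + 3)) ∨
        ((p + 3 = h ∨ p + 2 = h) ∧ (q + 3 = h ∨ q + 2 = h)) := by
      intro p q hp hq hpq
      have kp := nb1 h5 hp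
      have kq := nb1 h5 hq
      clear hp hq
      unfold relS relL at hpq
      omega
    have s1 := side a b ha hb hab
    have s2 := side b c hb hc hbc
    have s3 := side c d hc hd hcd
    clear side hab hbc hcd ha hb hc hd
    omega
  · have ka := nb2 h5 ha
    have kb := nb2 h5 hb
    have kc := nb2 h5 hc
    have kd := nb2 h5 hd
    clear ha hb hc hd hab hbc hcd
    omega
  · have ka := nb3 h5 ha
    have kb := nb3 h5 hb
    have kc := nb3 h5 hc
    have kd := nb3 h5 hd
    clear ha hb hc hd hab hbc hcd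
    omega
  · have side : ∀ p q : ℕ, relS h p → relS h q → relS p q →
       ((p + 4 = h ∨ p + 2 = h ∨ p = h + 1) ∧ (q + 4 = h ∨ q + 2 = h ∨ q = h + 1)) ∨
       ((p + 3 = h ∨ p + 1 = h ∨ p = h + 2) ∧ (q + 3 = h ∨ q + 1 = h ∨ q = h + 2)) := by
      intro p q hp hq hpq
      have kp := nb4 h5 hp
      have kq := nb4 h5 hq
      clear hp hq
      unfold relS relL at hpq
      omega
    have s1 := side a b ha hb hab
    have s2 := side b c hb hc hbc
    have s3 := side c d hc hd hcd
    clear side hab hbc hcd ha hb hc hd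
    omega

/-- All edges of `G` are ladder edges, except possibly among the vertices `≤ f`. -/
def Bd {n : ℕ} (f : ℕ) (G : SimpleGraph (Fin n)) : Prop :=
  ∀ x y : Fin n, G.Adj x y → relS x.val y.val ∨ (x.val ≤ f ∧ y.val ≤ f)

theorem bd_relS {n f : ℕ} {G : SimpleGraph (Fin n)} (hG : Bd f G) {x y : Fin n} (h : G.Adj x y)
    (hx : f < x.val) : relS x.val y.val := by
  rcases hG x y h with h | h
  · exact h
  · omega

/-- The front moves by at most `20` in one round. -/
theorem bd_uses {n f : ℕ} {G : SimpleGraph (Fin n)} (hG : Bd f G) {x y : Fin n}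
    (hU : Uses wheel G x y) : x.val ≤ f + 20 ∧ y.val ≤ f + 20 := by
  by_contra hcon
  obtain ⟨h, v, hv, hs, hr, hloc⟩ := uses_wheel_elim hU
  -- edges different from `xy` are in `G`
  have hS : ∀ j, ¬ (h = x ∧ v j = y) → ¬ (h = y ∧ v j = x) → G.Adj h (v j) := by
    intro j h1 h2
    have h3 := hs j
    rw [sup_adj, edge_adj] at h3
    rcases h3 with h3 | ⟨h3 | h3, -⟩
    · exact h3
    · exact absurd h3 h1
    · exact absurd h3 h2
  have hR : ∀ j, ¬ (v j = x ∧ v (j + 1) = y) → ¬ (v j = y ∧ v (j + 1) = x) →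
      G.Adj (v j) (v (j + 1)) := by
    intro j h1 h2
    have h3 := hr j
    rw [sup_adj, edge_adj] at h3
    rcases h3 with h3 | ⟨h3 | h3, -⟩
    · exact h3
    · exact absurd h3 h1
    · exact absurd h3 h2
  have hhv : ∀ j, h ≠ v j := fun j => (hs j).ne
  -- it suffices to find four consecutive rim vertices
  have fin : ∀ i : Fin 6, f + 12 < h.val → G.Adj h (v (i + 1)) → G.Adj h (v (i + 2)) →
      G.Adj h (v (i + 3)) → G.Adj h (v (i + 4)) → G.Adj (v (i + 1)) (v (i + 2)) →
      G.Adj (v (i + 2)) (v (i + 3)) → G.Adj (v (i + 3)) (v (i + 4)) → False := by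
    intro i hh k1 k2 k3 k4 m1 m2 m3
    have r1 := bd_relS hG k1 (by omega)
    have r2 := bd_relS hG k2 (by omega)
    have r3 := bd_relS hG k3 (by omega)
    have r4 := bd_relS hG k4 (by omega)
    have d1 := relS_dist r1
    have d2 := relS_dist r2
    have d3 := relS_dist r3
    have q1 := bd_relS hG m1 (by omega)
    have q2 := bd_relS hG m2 (by omega)
    have q3 := bd_relS hG m3 (by omega)
    have hne : ∀ a b : Fin 6, a ≠ b → (v a).val ≠ (v b).val := fun a b hab h =>
      hab (hv (Fin.ext h))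
    exact no_four r1 r2 r3 r4 q1 q2 q3
      (hne _ _ (by clear * -; revert i; decide)) (hne _ _ (by clear * -; revert i; decide))
      (hne _ _ (by clear * -; revert i; decide)) (hne _ _ (by clear * -; revert i; decide))
      (hne _ _ (by clear * -; revert i; decide)) (hne _ _ (by clear * -; revert i; decide))
  rcases hloc with ⟨i, hi⟩ | ⟨i, hi⟩
  · -- the new edge is the spoke to `v i`
    have hS' : ∀ j, j ≠ i → G.Adj h (v j) := by
      intro j hj
      apply hS
      · rintro ⟨h1, h2⟩
        rcases hi with ⟨h3, h4⟩ | ⟨h3, h4⟩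
        · exact hj (hv (h2.trans h4))
        · exact hhv i (h1.trans h4)
      · rintro ⟨h1, h2⟩
        rcases hi with ⟨h3, h4⟩ | ⟨h3, h4⟩
        · exact hhv i (h1.trans h4)
        · exact hj (hv (h2.trans h4))
    have hR' : ∀ j, G.Adj (v j) (v (j + 1)) := by
      intro j
      apply hR
      · rintro ⟨h1, h2⟩
        rcases hi with ⟨h3, h4⟩ | ⟨h3, h4⟩
        · exact hhv j (h3.symm.trans h1.symm)
        · exact hhv (j + 1) (h3.symm.trans h2.symm)
      · rintro ⟨h1, h2⟩
        rcases hi with ⟨h3, h4⟩ | ⟨h3, h4⟩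
        · exact hhv (j + 1) (h3.symm.trans h2.symm)
        · exact hhv j (h3.symm.trans h1.symm)
    have k1 := hS' (i + 1) (by clear * -; revert i; decide)
    have k2 := hS' (i + 2) (by clear * -; revert i; decide)
    have k3 := hS' (i + 3) (by clear * -; revert i; decide)
    have k4 := hS' (i + 4) (by clear * -; revert i; decide)
    have m0 := hR' i
    have m1 := hR' (i + 1)
    have m2 := hR' (i + 2)
    have m3 := hR' (i + 3)
    rw [show i + 1 + 1 = i + 2 by clear * -; revert i; decide] at m1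
    rw [show i + 2 + 1 = i + 3 by clear * -; revert i; decide] at m2
    rw [show i + 3 + 1 = i + 4 by clear * -; revert i; decide] at m3
    have hbig : f + 12 < h.val := by
      have hor : f + 20 < h.val ∨ f + 20 < (v i).val := by
        rcases hi with ⟨h3, h4⟩ | ⟨h3, h4⟩
        · rw [← h3, ← h4]; omega
        · rw [← h3, ← h4]; omega
      rcases hor with h5 | h5
      · omega
      · have d1 := relS_dist (bd_relS hG m0 (by omega))
        have d2 := relS_dist (bd_relS hG k1.symm (by omega))
        omega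
    exact fin i hbig k1 k2 k3 k4 m1 m2 m3
  · -- the new edge is the rim edge `v i v (i+1)`
    have hS' : ∀ j, G.Adj h (v j) := by
      intro j
      apply hS
      · rintro ⟨h1, h2⟩
        rcases hi with ⟨h3, h4⟩ | ⟨h3, h4⟩
        · exact hhv i (h1.trans h3.symm)
        · exact hhv (i + 1) (h1.trans h4.symm)
      · rintro ⟨h1, h2⟩
        rcases hi with ⟨h3, h4⟩ | ⟨h3, h4⟩
        · exact hhv (i + 1) (h1.trans h4.symm)
        · exact hhv i (h1.trans h3.symm)
    have hR' : ∀ j, j ≠ i → G.Adj (v j) (v (j + 1)) := by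
      intro j hj
      have aux : ¬ (j = i + 1 ∧ j + 1 = i) := by
        clear * -; revert i j; decide
      apply hR
      · rintro ⟨h1, h2⟩
        rcases hi with ⟨h3, h4⟩ | ⟨h3, h4⟩
        · exact hj (hv (h1.trans h3.symm))
        · exact aux ⟨hv (h1.trans h4.symm), hv (h2.trans h3.symm)⟩
      · rintro ⟨h1, h2⟩
        rcases hi with ⟨h3, h4⟩ | ⟨h3, h4⟩
        · exact aux ⟨hv (h1.trans h4.symm), hv (h2.trans h3.symm)⟩
        · exact hj (hv (h1.trans h3.symm))
    have m1 := hR' (i + 1) (by clear * -; revert i; decide)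
    have m2 := hR' (i + 2) (by clear * -; revert i; decide)
    have m3 := hR' (i + 3) (by clear * -; revert i; decide)
    rw [show i + 1 + 1 = i + 2 by clear * -; revert i; decide] at m1
    rw [show i + 2 + 1 = i + 3 by clear * -; revert i; decide] at m2
    rw [show i + 3 + 1 = i + 4 by clear * -; revert i; decide] at m3
    have hbig : f + 12 < h.val := by
      have hor : f + 20 < (v i).val ∨ f + 20 < (v (i + 1)).val := by
        rcases hi with ⟨h3, h4⟩ | ⟨h3, h4⟩
        · rw [h3, h4]; omega
        · rw [h3, h4]; omega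
      rcases hor with h5 | h5
      · have d2 := relS_dist (bd_relS hG (hS' i).symm (by omega))
        omega
      · have d2 := relS_dist (bd_relS hG (hS' (i + 1)).symm (by omega))
        omega
    exact fin i hbig (hS' _) (hS' _) (hS' _) (hS' _) m1 m2 m3

theorem bd_infect {n f : ℕ} {G : SimpleGraph (Fin n)} (hG : Bd f G) :
    Bd (f + 20) (infect wheel G) := by
  intro x y hxy
  rw [infect_adj] at hxy
  rcases hxy with h | ⟨-, -, hU⟩
  · rcases hG x y h with h | h
    · exact Or.inl h
    · exact Or.inr ⟨by omega, by omega⟩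
  · exact Or.inr (bd_uses hG hU)

/-- The ladder with only the rung `p_0 q_0`. -/
def ladder (n : ℕ) : SimpleGraph (Fin n) where
  Adj x y := relS x.val y.val ∨ (x.val = 0 ∧ y.val = 1) ∨ (y.val = 0 ∧ x.val = 1)
  symm := ⟨by
    rintro x y (h | h | h)
    · exact Or.inl h.symm
    · exact Or.inr (Or.inr h)
    · exact Or.inr (Or.inl h)⟩
  loopless := ⟨by
    rintro x (h | h | h)
    · unfold relS relL at h; omega
    · omega
    · omega⟩

theorem bd_process (n t : ℕ) : Bd (20 * t + 1) (process wheel (ladder n) t) := by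
  induction t with
  | zero =>
    rintro x y (h | h | h)
    · exact Or.inl h
    · exact Or.inr ⟨by omega, by omega⟩
    · exact Or.inr ⟨by omega, by omega⟩
  | succ t ih =>
    rw [process_succ]
    exact bd_infect ih

theorem ladder_unstable {n t : ℕ} (hn : 20 * t + 8 ≤ n) :
    process wheel (ladder n) t ≠ process wheel (ladder n) (t + 1) := by
  intro heq
  have hmono := process_mono wheel (ladder n)
  set P := process wheel (ladder n) t with hP
  have hle : ladder n ≤ P := hmono (Nat.zero_le t)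
  have hrung : ∀ i : ℕ, ∀ h : 5 * i + 1 < n, P.Adj ⟨5 * i, by omega⟩ ⟨5 * i + 1, h⟩ := by
    intro i
    induction i with
    | zero => intro h; exact hle (Or.inr (Or.inl ⟨rfl, rfl⟩))
    | succ i ih =>
      intro h
      have h0 := ih (by omega)
      let v : Fin 6 → Fin n := ![⟨5 * i + 6, by omega⟩, ⟨5 * i + 3, by omega⟩,
        ⟨5 * i + 1, by omega⟩, ⟨5 * i, by omega⟩, ⟨5 * i + 2, by omega⟩, ⟨5 * i + 5, by omega⟩]
      have hv : Function.Injective v := by
        apply (List.nodup_ofFn (f := v)).1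
        simp [v, List.ofFn_succ]
      have hs : ∀ j, P.Adj ⟨5 * i + 4, by omega⟩ (v j) := by
        intro j
        apply hle
        left
        unfold relS relL
        fin_cases j <;> simp [v]
      have hr : ∀ j, j ≠ 5 → P.Adj (v j) (v (j + 1)) := by
        intro j hj
        fin_cases j
        · apply hle; left; unfold relS relL; simp [v]
        · apply hle; left; unfold relS relL; simp [v]
        · exact h0.symm
        · apply hle; left; unfold relS relL; simp [v]
        · apply hle; left; unfold relS relL; simp [v]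
        · exact absurd rfl hj
      have hU := uses_wheel_rim hv hs hr
      have hadj : (infect wheel P).Adj (v 5) (v 0) := by
        rw [infect_adj]
        by_cases hadj : P.Adj (v 5) (v 0)
        · exact Or.inl hadj
        · exact Or.inr ⟨hv.ne (by decide), hadj, hU⟩
      rw [hP, ← process_succ, ← heq] at hadj
      have e1 : v 5 = ⟨5 * (i + 1), by omega⟩ := rfl
      have e2 : v 0 = ⟨5 * (i + 1) + 1, h⟩ := rfl
      rw [e1, e2] at hadj
      exact hadj
  have h1 := hrung (4 * t + 1) (by omega)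
  rcases bd_process n t _ _ h1 with h2 | h2
  · unfold relS relL at h2
    simp only at h2
    omega
  · simp only at h2
    omega

/-- `M_H` is at least linear for the wheel. -/
theorem lt_maxRunningTime_wheel {n t : ℕ} (hn : 20 * t + 8 ≤ n) :
    t < maxRunningTime wheel n :=
  lt_of_lt_of_le (le_runningTime wheel (ladder n) (ladder_unstable hn))
    (runningTime_le_maxRunningTime wheel (ladder n))

end Pool.Agent.MP_7332c2_co
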