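import Pool.Agent.MP_7332c2_co.UpperMain

open SimpleGraph

namespace Pool.Agent.MP_7332c2_co

/-- The starting graph: vertex `0` is joined to all vertices, and `1, 2, …, n-1` form a path. -/
def cone (n : ℕ) : SimpleGraph (Fin n) where
  Adj x y := x ≠ y ∧ (x.val = 0 ∨ y.val = 0 ∨ x.val + 1 = y.val ∨ y.val + 1 = x.val)
  symm := ⟨by
    rintro x y ⟨h1, h2⟩
    refine ⟨h1.symm, ?_⟩
    omega⟩
  loopless := ⟨by
    rintro x ⟨h1, -⟩
    exact h1 rfl⟩

/-- Away from `0`, all edges join vertices of different parity which are at distance at most `k`. -/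
def Inv {n : ℕ} (k : ℕ) (G : SimpleGraph (Fin n)) : Prop :=
  ∀ x y : Fin n, x.val ≠ 0 → y.val ≠ 0 → G.Adj x y →
    (x.val + y.val) % 2 = 1 ∧ x.val ≤ y.val + k ∧ y.val ≤ x.val + k

theorem two_tri {α : Type*} {x y h a b c d : α} (hxy : x ≠ y) (hac : a ≠ c) (had : a ≠ d)
    (hbc : b ≠ c) (hbd : b ≠ d) (ha : h ≠ a) (hb : h ≠ b) (hc : h ≠ c) (hd : h ≠ d) :
    ¬ (((x = h ∨ x = a ∨ x = b) ∧ (y = h ∨ y = a ∨ y = b)) ∧
      ((x = h ∨ x = c ∨ x = d) ∧ (y = h ∨ y = c ∨ y = d))) := by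
  rintro ⟨⟨h1, h2⟩, h3, h4⟩
  have e1 : x = h := by
    rcases h1 with rfl | rfl | rfl
    · rfl
    · rcases h3 with h3 | h3 | h3
      · exact h3
      · exact absurd h3 hac
      · exact absurd h3 had
    · rcases h3 with h3 | h3 | h3
      · exact h3
      · exact absurd h3 hbc
      · exact absurd h3 hbd
  have e2 : y = h := by
    rcases h2 with rfl | rfl | rfl
    · rfl
    · rcases h4 with h3 | h3 | h3
      · exact h3
      · exact absurd h3 hac
      · exact absurd h3 had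
    · rcases h4 with h3 | h3 | h3
      · exact h3
      · exact absurd h3 hbc
      · exact absurd h3 hbd
  exact hxy (e1.trans e2.symm)

theorem no_hub {n k : ℕ} {G : SimpleGraph (Fin n)} (hG : Inv k G) {x y h : Fin n}
    (hh0 : h.val ≠ 0) (hxy : x ≠ y) (hh : HubAt (G ⊔ edge x y) h) : False := by
  obtain ⟨v, hv, ha⟩ := hh
  -- for each of three disjoint triangles
  have key : ∀ i j : Fin 6, (G ⊔ edge x y).Adj (v i) (v j) →
      ((v i).val = 0 ∨ (v j).val = 0) ∨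
      ((x = h ∨ x = v i ∨ x = v j) ∧ (y = h ∨ y = v i ∨ y = v j)) := by
    intro i j hij
    by_contra hcon
    push Not at hcon
    obtain ⟨⟨h1, h2⟩, h3⟩ := hcon
    have hi := (ha i).1
    have hj := (ha j).1
    rw [sup_adj, edge_adj] at hij hi hj
    have e1 : G.Adj (v i) (v j) := by
      rcases hij with h4 | ⟨⟨h4, h5⟩ | ⟨h4, h5⟩, -⟩
      · exact h4
      · exact absurd h5.symm ((h3 (Or.inr (Or.inl h4.symm))).2.2)
      · exact absurd h4.symm ((h3 (Or.inr (Or.inr h5.symm))).2.1)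
    have e2 : G.Adj h (v i) := by
      rcases hi with h4 | ⟨⟨h4, h5⟩ | ⟨h4, h5⟩, -⟩
      · exact h4
      · exact absurd h5.symm ((h3 (Or.inl h4.symm)).2.1)
      · exact absurd h4.symm ((h3 (Or.inr (Or.inl h5.symm))).1)
    have e3 : G.Adj h (v j) := by
      rcases hj with h4 | ⟨⟨h4, h5⟩ | ⟨h4, h5⟩, -⟩
      · exact h4
      · exact absurd h5.symm ((h3 (Or.inl h4.symm)).2.2)
      · exact absurd h4.symm ((h3 (Or.inr (Or.inr h5.symm))).1)
    have f1 := hG _ _ h1 h2 e1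
    have f2 := hG _ _ hh0 h1 e2
    have f3 := hG _ _ hh0 h2 e3
    omega
  have t0 := key 0 1 (ha 0).2
  have t2 := key 2 3 (ha 2).2
  have t4 := key 4 5 (ha 4).2
  have e01 : v 0 ≠ v 1 := hv.ne (by decide)
  have e02 : v 0 ≠ v 2 := hv.ne (by decide)
  have e03 : v 0 ≠ v 3 := hv.ne (by decide)
  have e04 : v 0 ≠ v 4 := hv.ne (by decide)
  have e05 : v 0 ≠ v 5 := hv.ne (by decide)
  have e12 : v 1 ≠ v 2 := hv.ne (by decide)
  have e13 : v 1 ≠ v 3 := hv.ne (by decide)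
  have e14 : v 1 ≠ v 4 := hv.ne (by decide)
  have e15 : v 1 ≠ v 5 := hv.ne (by decide)
  have e23 : v 2 ≠ v 3 := hv.ne (by decide)
  have e24 : v 2 ≠ v 4 := hv.ne (by decide)
  have e25 : v 2 ≠ v 5 := hv.ne (by decide)
  have e34 : v 3 ≠ v 4 := hv.ne (by decide)
  have e35 : v 3 ≠ v 5 := hv.ne (by decide)
  have e45 : v 4 ≠ v 5 := hv.ne (by decide)
  have hz : ∀ p q : Fin n, p.val = 0 → q.val = 0 → p = q := fun p q hp hq =>
    Fin.ext (hp.trans hq.symm)
  -- vertex `0` lies in at most one of the three triangles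
  have z02 : ¬ (((v 0).val = 0 ∨ (v 1).val = 0) ∧ ((v 2).val = 0 ∨ (v 3).val = 0)) := by
    rintro ⟨h1 | h1, h2 | h2⟩
    · exact e02 (hz _ _ h1 h2)
    · exact e03 (hz _ _ h1 h2)
    · exact e12 (hz _ _ h1 h2)
    · exact e13 (hz _ _ h1 h2)
  have z04 : ¬ (((v 0).val = 0 ∨ (v 1).val = 0) ∧ ((v 4).val = 0 ∨ (v 5).val = 0)) := by
    rintro ⟨h1 | h1, h2 | h2⟩
    · exact e04 (hz _ _ h1 h2)
    · exact e05 (hz _ _ h1 h2)
    · exact e14 (hz _ _ h1 h2)
    · exact e15 (hz _ _ h1 h2)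
  have z24 : ¬ (((v 2).val = 0 ∨ (v 3).val = 0) ∧ ((v 4).val = 0 ∨ (v 5).val = 0)) := by
    rintro ⟨h1 | h1, h2 | h2⟩
    · exact e24 (hz _ _ h1 h2)
    · exact e25 (hz _ _ h1 h2)
    · exact e34 (hz _ _ h1 h2)
    · exact e35 (hz _ _ h1 h2)
  have h0 : h ≠ v 0 := (ha 0).1.ne
  have h1 : h ≠ v 1 := (ha 1).1.ne
  have h2 : h ≠ v 2 := (ha 2).1.ne
  have h3 : h ≠ v 3 := (ha 3).1.ne
  have h4 : h ≠ v 4 := (ha 4).1.ne
  have h5 : h ≠ v 5 := (ha 5).1.ne
  have y02 := two_tri (x := x) (y := y) hxy e02 e03 e12 e13 h0 h1 h2 h3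
  have y04 := two_tri (x := x) (y := y) hxy e04 e05 e14 e15 h0 h1 h4 h5
  have y24 := two_tri (x := x) (y := y) hxy e24 e25 e34 e35 h2 h3 h4 h5
  rcases t0 with t0 | t0 <;> rcases t2 with t2 | t2
  · exact z02 ⟨t0, t2⟩
  · rcases t4 with t4 | t4
    · exact z04 ⟨t0, t4⟩
    · exact y24 ⟨t2, t4⟩
  · rcases t4 with t4 | t4
    · exact z24 ⟨t2, t4⟩
    · exact y04 ⟨t0, t4⟩
  · exact y02 ⟨t0, t2⟩

theorem inv_process {n : ℕ} (hn : 0 < n) (t : ℕ) : Inv (5 ^ t) (process pwheel (cone n) t) := by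
  have huniv : ∀ t, Univ (process pwheel (cone n) t) ⟨0, hn⟩ := by
    intro t
    apply Univ.mono (process_mono pwheel (cone n) (Nat.zero_le t))
    intro y hy
    exact ⟨hy.symm, Or.inl rfl⟩
  induction t with
  | zero =>
    rintro x y hx hy ⟨h1, h2⟩
    simp only [pow_zero]
    omega
  | succ t ih =>
    intro x y hx hy hxy
    rw [process_succ, infect_adj] at hxy
    rw [pow_succ]
    rcases hxy with h | ⟨hne, hnadj, hU⟩
    · have := ih x y hx hy h
      omega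
    · rcases P6_or_hub (huniv t) hne hnadj hU with h | ⟨h, hh0, hh⟩
      · obtain ⟨a, b, c, d, h1, h2, h3, h4, h5, -⟩ := h
        simp only [del_adj, Fin.ext_iff, ne_eq] at h1 h2 h3 h4 h5
        have k1 := ih _ _ h1.2.1 h1.2.2 h1.1
        have k2 := ih _ _ h2.2.1 h2.2.2 h2.1
        have k3 := ih _ _ h3.2.1 h3.2.2 h3.1
        have k4 := ih _ _ h4.2.1 h4.2.2 h4.1
        have k5 := ih _ _ h5.2.1 h5.2.2 h5.1
        omega
      · exfalso
        refine no_hub ih ?_ hne hh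
        intro h0
        exact hh0 (Fin.ext h0)

theorem cone_unstable {n t : ℕ} (hn : 4 * 5 ^ t + 8 ≤ n) :
    process pwheel (cone n) t ≠ process pwheel (cone n) (t + 1) := by
  intro heq
  have hn0 : 0 < n := by omega
  have hmono := process_mono pwheel (cone n)
  have huniv : Univ (process pwheel (cone n) t) ⟨0, hn0⟩ := by
    apply Univ.mono (hmono (Nat.zero_le t))
    intro y hy
    exact ⟨hy.symm, Or.inl rfl⟩
  have hclosed : ∀ x y, P6 (del ⟨0, hn0⟩ (process pwheel (cone n) t)) x y →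
      (process pwheel (cone n) t).Adj x y := by
    intro x y hP
    rw [heq, process_succ]
    exact infect_of_P6 huniv (by rw [Fintype.card_fin]; omega) hP
  have hcons : ∀ i : ℕ, ∀ h1 : 1 ≤ i, ∀ h : i + 1 < n,
      (del ⟨0, hn0⟩ (process pwheel (cone n) t)).Adj ⟨i, by omega⟩ ⟨i + 1, h⟩ := by
    intro i h1 h
    refine ⟨hmono (Nat.zero_le t) ⟨?_, ?_⟩, ?_, ?_⟩
    · simp [Fin.ext_iff]
    · simp
    · simp [Fin.ext_iff]; omega
    · simp [Fin.ext_iff]
  have hlong : ∀ k i : ℕ, ∀ h1 : 1 ≤ i, ∀ h : i + 1 + 4 * k < n,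
      (del ⟨0, hn0⟩ (process pwheel (cone n) t)).Adj ⟨i, by omega⟩ ⟨i + 1 + 4 * k, h⟩ := by
    intro k
    induction k with
    | zero => intro i h1 h; exact hcons i h1 h
    | succ k ih =>
      intro i h1 h
      refine ⟨hclosed _ _ ⟨⟨i + 1 + 4 * k, by omega⟩, ⟨i + 1 + 4 * k + 1, by omega⟩,
        ⟨i + 1 + 4 * k + 2, by omega⟩, ⟨i + 1 + 4 * k + 3, by omega⟩, ih i h1 (by omega),
        hcons _ (by omega) (by omega), hcons _ (by omega) (by omega),
        hcons _ (by omega) (by omega), hcons _ (by omega) (by omega), ?_⟩, ?_, ?_⟩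
      · simp only [List.nodup_cons, List.mem_cons, List.not_mem_nil, or_false, not_or,
          not_false_eq_true, List.nodup_nil, and_true, Fin.mk.injEq]
        omega
      · simp [Fin.ext_iff]; omega
      · simp [Fin.ext_iff]
  have h1 := hlong (5 ^ t) 1 le_rfl (by omega)
  have h2 := inv_process hn0 t _ _ (by simp) (by simp) h1.1
  simp only at h2
  have : 0 < 5 ^ t := by positivity
  omega

/-- `M_{H^{u+}}` is unbounded for the wheel. -/
theorem lt_maxRunningTime_pwheel {n t : ℕ} (hn : 4 * 5 ^ t + 8 ≤ n) :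
    t < maxRunningTime pwheel n :=
  lt_of_lt_of_le (le_runningTime pwheel (cone n) (cone_unstable hn))
    (runningTime_le_maxRunningTime pwheel (cone n))

end Pool.Agent.MP_7332c2_co
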