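import Pool.Agent.MP_7332c2_co.Wheel

open SimpleGraph

namespace Pool.Agent.MP_7332c2_co

variable {V : Type*}

/-- `r` is joined to all other vertices. -/
def Univ (G : SimpleGraph V) (r : V) : Prop := ∀ y, y ≠ r → G.Adj r y

theorem Univ.mono {G G' : SimpleGraph V} (hle : G ≤ G') {r : V} (h : Univ G r) : Univ G' r :=
  fun y hy => hle (h y hy)

/-- The graph `G` without the edges at `r`. -/
def del (r : V) (G : SimpleGraph V) : SimpleGraph V where
  Adj x y := G.Adj x y ∧ x ≠ r ∧ y ≠ r
  symm := ⟨fun _ _ h => ⟨h.1.symm, h.2.2, h.2.1⟩⟩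
  loopless := ⟨fun _ h => G.irrefl h.1⟩

theorem del_adj {r : V} {G : SimpleGraph V} {x y : V} :
    (del r G).Adj x y ↔ G.Adj x y ∧ x ≠ r ∧ y ≠ r := Iff.rfl

theorem infect_of_uses [Fintype V] {W : Type*} {H : SimpleGraph W} {G : SimpleGraph V} {x y : V}
    (hne : x ≠ y) (hU : Uses H G x y) : (infect H G).Adj x y := by
  rw [infect_adj]
  by_cases h : G.Adj x y
  · exact Or.inl h
  · exact Or.inr ⟨hne, h, hU⟩

theorem sup_edge_le_infect [Fintype V] {W : Type*} {H : SimpleGraph W} {G : SimpleGraph V}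
    {x y : V} (h : (infect H G).Adj x y) : G ⊔ edge x y ≤ infect H G := by
  intro a b hab
  rw [sup_adj, edge_adj] at hab
  rcases hab with hab | ⟨⟨rfl, rfl⟩ | ⟨rfl, rfl⟩, -⟩
  · exact le_infect _ _ hab
  · exact h
  · exact h.symm

theorem hubAt_of_ne [Fintype V] {G : SimpleGraph V} (h : infect pwheel G ≠ G) :
    ∃ r, HubAt (infect pwheel G) r := by
  have hex : ∃ x y, (infect pwheel G).Adj x y ∧ ¬ G.Adj x y := by
    by_contra hcon
    push Not at hcon
    exact h (le_antisymm (fun x y hxy => hcon x y hxy) (le_infect _ _))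
  obtain ⟨x, y, hxy, hn⟩ := hex
  have hU : Uses pwheel G x y := by
    rcases (infect_adj pwheel G x y).1 hxy with h1 | h1
    · exact absurd h1 hn
    · exact h1.2.2
  obtain ⟨f, -⟩ := hU
  obtain ⟨h1, h2, h3⟩ := pwheel_elim f
  have hle := sup_edge_le_infect hxy
  exact ⟨f (some none), fun i => f (some (some i)), h1, fun i => ⟨hle (h2 i), hle (h3 i)⟩⟩

theorem univ_of_hubAt [Fintype V] {G : SimpleGraph V} {r : V} (h : HubAt G r) :
    Univ (infect pwheel G) r := by
  obtain ⟨v, hv, ha⟩ := h
  intro y hy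
  by_cases hyv : ∃ i, y = v i
  · obtain ⟨i, rfl⟩ := hyv
    exact le_infect _ _ (ha i).1
  · push Not at hyv
    exact infect_of_uses hy.symm
      (uses_pwheel_pendant hv (fun i => (ha i).1) (fun i => (ha i).2) hy.symm hyv)

theorem exists_avoid_list [Fintype V] (L : List V) (h : L.length < Fintype.card V) :
    ∃ p, p ∉ L := by
  obtain ⟨p, -, hp⟩ := exists_avoid (Set.univ : Set V) L (by
    rw [Set.ncard_univ, Nat.card_eq_fintype_card]; exact h)
  exact ⟨p, hp⟩

theorem infect_of_P6 [Fintype V] {G : SimpleGraph V} {r : V} (hr : Univ G r)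
    (hV : 8 ≤ Fintype.card V) {x y : V} (hP : P6 (del r G) x y) :
    (infect pwheel G).Adj x y := by
  have hne := hP.ne
  obtain ⟨a, b, c, d, h1, h2, h3, h4, h5, hn⟩ := hP
  rw [del_adj] at h1 h2 h3 h4 h5
  obtain ⟨w, hw⟩ := exists_avoid_list [r, x, a, b, c, d, y] (by simp; omega)
  simp only [List.mem_cons, List.not_mem_nil, or_false, not_or] at hw
  let v : Fin 6 → V := ![y, d, c, b, a, x]
  have hv : Function.Injective v := by
    apply (List.nodup_ofFn (f := v)).1
    have := List.nodup_reverse.2 hn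
    simpa [v, List.ofFn_succ] using this
  have hs : ∀ i, G.Adj r (v i) := by
    intro i
    fin_cases i
    · exact hr _ h5.2.2
    · exact hr _ h5.2.1
    · exact hr _ h4.2.1
    · exact hr _ h3.2.1
    · exact hr _ h2.2.1
    · exact hr _ h1.2.1
  have hrim : ∀ i, i ≠ 5 → G.Adj (v i) (v (i + 1)) := by
    intro i hi
    fin_cases i
    · exact h5.1.symm
    · exact h4.1.symm
    · exact h3.1.symm
    · exact h2.1.symm
    · exact h1.1.symm
    · exact absurd rfl hi
  have hwv : ∀ i, w ≠ v i := by
    intro i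
    fin_cases i
    · exact hw.2.2.2.2.2.2
    · exact hw.2.2.2.2.2.1
    · exact hw.2.2.2.2.1
    · exact hw.2.2.2.1
    · exact hw.2.2.1
    · exact hw.2.1
  exact infect_of_uses hne (uses_pwheel_rim hv hs hrim (hr w hw.1) hwv)

/-- A new edge of the process either closes a `C_6` in `G - r` or creates a second hub. -/
theorem P6_or_hub {G : SimpleGraph V} {r : V} (hr : Univ G r) {x y : V}
    (hne : x ≠ y) (hn : ¬ G.Adj x y) (hU : Uses pwheel G x y) :
    P6 (del r G) x y ∨ ∃ h, h ≠ r ∧ HubAt (G ⊔ edge x y) h := by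
  obtain ⟨h, v, hv, hs, hrim, hxy⟩ := uses_pwheel_elim hU
  by_cases hhr : h = r
  · subst hhr
    left
    have hx : x ≠ h := by
      rintro rfl
      exact hn (hr y hne.symm)
    have hy : y ≠ h := by
      rintro rfl
      exact hn (hr x hne).symm
    have hvr : ∀ i, v i ≠ h := fun i => (hs i).ne'
    -- the general statement, up to orientation
    have key : ∀ i, s(v i, v (i + 1)) = s(x, y) → P6 (del h G) (v i) (v (i + 1)) := by
      intro i hi
      have hG : ∀ j, j ≠ i → (del h G).Adj (v j) (v (j + 1)) := by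
        intro j hj
        refine ⟨?_, hvr _, hvr _⟩
        have h1 := hrim j
        rw [sup_adj] at h1
        rcases h1 with h1 | h1
        · exact h1
        · exfalso
          rw [adj_edge, ← hi] at h1
          have h2 := h1.1
          rw [Sym2.eq_iff] at h2
          rcases h2 with ⟨h3, -⟩ | ⟨h3, h4⟩
          · exact hj (hv h3).symm
          · have h5 := hv h3
            have h6 := hv h4
            rw [h5, add_assoc] at h6
            revert h6
            clear * -
            revert j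
            decide
      have g1 := hG (i + 5) (by clear * -; revert i; decide)
      have g2 := hG (i + 4) (by clear * -; revert i; decide)
      have g3 := hG (i + 3) (by clear * -; revert i; decide)
      have g4 := hG (i + 2) (by clear * -; revert i; decide)
      have g5 := hG (i + 1) (by clear * -; revert i; decide)
      rw [show i + 5 + 1 = i by clear * -; revert i; decide] at g1
      rw [show i + 4 + 1 = i + 5 by clear * -; revert i; decide] at g2
      rw [show i + 3 + 1 = i + 4 by clear * -; revert i; decide] at g3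
      rw [show i + 2 + 1 = i + 3 by clear * -; revert i; decide] at g4
      rw [show i + 1 + 1 = i + 2 by clear * -; revert i; decide] at g5
      refine ⟨v (i + 5), v (i + 4), v (i + 3), v (i + 2), g1.symm, g2.symm, g3.symm, g4.symm,
        g5.symm, ?_⟩
      have : [v i, v (i + 5), v (i + 4), v (i + 3), v (i + 2), v (i + 1)] =
          [i, i + 5, i + 4, i + 3, i + 2, i + 1].map v := rfl
      rw [this]
      apply List.Nodup.map hv
      clear * -; revert i; decide
    rcases hxy with (h1 | h1) | ⟨i, ⟨h1, h2⟩ | ⟨h1, h2⟩⟩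
    · exact absurd h1 hx
    · exact absurd h1 hy
    · rw [← h1, ← h2]
      exact key i (by rw [h1, h2])
    · have := key i (by rw [h1, h2]; exact Sym2.eq_swap)
      rw [h1, h2] at this
      exact this.symm
  · right
    exact ⟨h, hhr, v, hv, fun i => ⟨hs i, hrim i⟩⟩

theorem rule5 [Fintype V] {G : SimpleGraph V} {r h : V} (hr : Univ G r) (hh : Univ G h)
    (hrh : r ≠ h) (hV : 8 ≤ Fintype.card V) {p1 p2 p3 p4 p5 : V}
    (hn : [r, h, p1, p2, p3, p4, p5].Nodup) (h23 : G.Adj p2 p3) (h34 : G.Adj p3 p4)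
    (h45 : G.Adj p4 p5) : (infect pwheel G).Adj p1 p2 := by
  obtain ⟨w, hw⟩ := exists_avoid_list [r, h, p1, p2, p3, p4, p5] (by simp; omega)
  simp only [List.mem_cons, List.not_mem_nil, or_false, not_or] at hw
  simp only [List.nodup_cons, List.mem_cons, List.not_mem_nil, or_false, not_or,
      not_false_eq_true, List.nodup_nil, and_true] at hn
  obtain ⟨⟨a1, a2, a3, a4, a5, a6⟩, ⟨b1, b2, b3, b4, b5⟩, ⟨c1, c2, c3, c4⟩, ⟨d1, d2, d3⟩,
    ⟨e1, e2⟩, f1⟩ := hn
  let v : Fin 6 → V := ![p2, p3, p4, p5, h, p1]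
  have hv : Function.Injective v := by
    apply (List.nodup_ofFn (f := v)).1
    simp [v, List.ofFn_succ]
    grind
  have hs : ∀ i, G.Adj r (v i) := by
    intro i
    fin_cases i
    · exact hr _ (Ne.symm a3)
    · exact hr _ (Ne.symm a4)
    · exact hr _ (Ne.symm a5)
    · exact hr _ (Ne.symm a6)
    · exact hr _ (Ne.symm hrh)
    · exact hr _ (Ne.symm a2)
  have hrim : ∀ i, i ≠ 5 → G.Adj (v i) (v (i + 1)) := by
    intro i hi
    fin_cases i
    · exact h23
    · exact h34
    · exact h45
    · exact (hh _ (Ne.symm b5)).symm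
    · exact hh _ (Ne.symm b1)
    · exact absurd rfl hi
  have hwv : ∀ i, w ≠ v i := by
    intro i
    fin_cases i
    · exact hw.2.2.2.1
    · exact hw.2.2.2.2.1
    · exact hw.2.2.2.2.2.1
    · exact hw.2.2.2.2.2.2
    · exact hw.2.1
    · exact hw.2.2.1
  exact infect_of_uses c1 (uses_pwheel_rim hv hs hrim (hr w hw.1) hwv)

end Pool.Agent.MP_7332c2_co
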