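import Pool.Agent.MP_7332c2_co.Upper

open SimpleGraph

namespace Pool.Agent.MP_7332c2_co

variable {V : Type*}

/-- Two universal vertices and a path on five further vertices: the process completes the graph
in three rounds. -/
theorem two_univ [Fintype V] {G : SimpleGraph V} {r h : V} (hr : Univ G r) (hh : Univ G h)
    (hrh : r ≠ h) (hV : 10 ≤ Fintype.card V) {x1 x2 x3 x4 x5 : V}
    (hn : [r, h, x1, x2, x3, x4, x5].Nodup) (h12 : G.Adj x1 x2) (h23 : G.Adj x2 x3)
    (h34 : G.Adj x3 x4) (h45 : G.Adj x4 x5) :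
    infect pwheel (infect pwheel (infect pwheel G)) = ⊤ := by
  have hV8 : 8 ≤ Fintype.card V := by omega
  set G1 := infect pwheel G with hG1
  set G2 := infect pwheel G1 with hG2
  set G3 := infect pwheel G2 with hG3
  have l1 : G ≤ G1 := le_infect _ _
  have l2 : G1 ≤ G2 := le_infect _ _
  have l3 : G2 ≤ G3 := le_infect _ _
  have hr1 := hr.mono l1
  have hh1 := hh.mono l1
  have hr2 := hr1.mono l2
  have hh2 := hh1.mono l2
  have hr3 := hr2.mono l3
  have hh3 := hh2.mono l3
  simp only [List.nodup_cons, List.mem_cons, List.not_mem_nil, or_false, not_or,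
      not_false_eq_true, List.nodup_nil, and_true] at hn
  obtain ⟨⟨a1, a2, a3, a4, a5, a6⟩, ⟨b1, b2, b3, b4, b5⟩, ⟨c1, c2, c3, c4⟩, ⟨d1, d2, d3⟩,
    ⟨e1, e2⟩, f1⟩ := hn
  -- `z ∉ S`
  let S : V → Prop := fun z => z ≠ r ∧ z ≠ h ∧ z ≠ x1 ∧ z ≠ x2 ∧ z ≠ x3 ∧ z ≠ x4 ∧ z ≠ x5
  have s1 : ∀ z, S z → G1.Adj z x2 := by
    rintro z ⟨z1, z2, z3, z4, z5, z6, z7⟩
    apply rule5 hr hh hrh hV8 (p1 := z) (p2 := x2) (p3 := x3) (p4 := x4) (p5 := x5) _ h23 h34 h45
    simp only [List.nodup_cons, List.mem_cons, List.not_mem_nil, or_false, not_or,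
      not_false_eq_true, List.nodup_nil, and_true]
    grind
  have s2 : ∀ z, S z → G1.Adj z x4 := by
    rintro z ⟨z1, z2, z3, z4, z5, z6, z7⟩
    apply rule5 hr hh hrh hV8 (p1 := z) (p2 := x4) (p3 := x3) (p4 := x2) (p5 := x1) _ h34.symm
      h23.symm h12.symm
    simp only [List.nodup_cons, List.mem_cons, List.not_mem_nil, or_false, not_or,
      not_false_eq_true, List.nodup_nil, and_true]
    grind
  have s3 : ∀ z z', S z → S z' → z ≠ z' → G2.Adj z z' := by
    intro z z' hz hz' hzz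
    obtain ⟨w, hw⟩ := exists_avoid_list [r, h, x1, x2, x3, x4, x5, z, z'] (by simp; omega)
    simp only [List.mem_cons, List.not_mem_nil, or_false, not_or] at hw
    have hwS : S w := ⟨hw.1, hw.2.1, hw.2.2.1, hw.2.2.2.1, hw.2.2.2.2.1, hw.2.2.2.2.2.1,
      hw.2.2.2.2.2.2.1⟩
    apply rule5 hr1 hh1 hrh hV8 (p1 := z) (p2 := z') (p3 := x2) (p4 := w) (p5 := x4) _
      (s1 z' hz') (s1 w hwS).symm (s2 w hwS)
    obtain ⟨z1, z2, z3, z4, z5, z6, z7⟩ := hz
    obtain ⟨y1, y2, y3, y4, y5, y6, y7⟩ := hz'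
    simp only [List.nodup_cons, List.mem_cons, List.not_mem_nil, or_false, not_or,
      not_false_eq_true, List.nodup_nil, and_true]
    grind
  have s4 : ∀ z, S z → G2.Adj z x1 := by
    intro z hz
    obtain ⟨w, hw⟩ := exists_avoid_list [r, h, x1, x2, x3, x4, x5, z] (by simp; omega)
    simp only [List.mem_cons, List.not_mem_nil, or_false, not_or] at hw
    have hwS : S w := ⟨hw.1, hw.2.1, hw.2.2.1, hw.2.2.2.1, hw.2.2.2.2.1, hw.2.2.2.2.2.1,
      hw.2.2.2.2.2.2.1⟩
    apply rule5 hr1 hh1 hrh hV8 (p1 := z) (p2 := x1) (p3 := x2) (p4 := w) (p5 := x4) _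
      (l1 h12) (s1 w hwS).symm (s2 w hwS)
    obtain ⟨z1, z2, z3, z4, z5, z6, z7⟩ := hz
    simp only [List.nodup_cons, List.mem_cons, List.not_mem_nil, or_false, not_or,
      not_false_eq_true, List.nodup_nil, and_true]
    grind
  have s5 : ∀ z, S z → G2.Adj z x5 := by
    intro z hz
    obtain ⟨w, hw⟩ := exists_avoid_list [r, h, x1, x2, x3, x4, x5, z] (by simp; omega)
    simp only [List.mem_cons, List.not_mem_nil, or_false, not_or] at hw
    have hwS : S w := ⟨hw.1, hw.2.1, hw.2.2.1, hw.2.2.2.1, hw.2.2.2.2.1, hw.2.2.2.2.2.1,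
      hw.2.2.2.2.2.2.1⟩
    apply rule5 hr1 hh1 hrh hV8 (p1 := z) (p2 := x5) (p3 := x4) (p4 := w) (p5 := x2) _
      (l1 h45.symm) (s2 w hwS).symm (s1 w hwS)
    obtain ⟨z1, z2, z3, z4, z5, z6, z7⟩ := hz
    simp only [List.nodup_cons, List.mem_cons, List.not_mem_nil, or_false, not_or,
      not_false_eq_true, List.nodup_nil, and_true]
    grind
  have s6 : ∀ z, S z → G2.Adj z x3 := by
    intro z hz
    obtain ⟨w, hw⟩ := exists_avoid_list [r, h, x1, x2, x3, x4, x5, z] (by simp; omega)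
    simp only [List.mem_cons, List.not_mem_nil, or_false, not_or] at hw
    have hwS : S w := ⟨hw.1, hw.2.1, hw.2.2.1, hw.2.2.2.1, hw.2.2.2.2.1, hw.2.2.2.2.2.1,
      hw.2.2.2.2.2.2.1⟩
    apply rule5 hr1 hh1 hrh hV8 (p1 := z) (p2 := x3) (p3 := x4) (p4 := w) (p5 := x2) _
      (l1 h34) (s2 w hwS).symm (s1 w hwS)
    obtain ⟨z1, z2, z3, z4, z5, z6, z7⟩ := hz
    simp only [List.nodup_cons, List.mem_cons, List.not_mem_nil, or_false, not_or,
      not_false_eq_true, List.nodup_nil, and_true]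
    grind
  -- pairs inside the path
  have s7 : ∀ p q, (p = x1 ∨ p = x2 ∨ p = x3 ∨ p = x4 ∨ p = x5) →
      (q = x1 ∨ q = x2 ∨ q = x3 ∨ q = x4 ∨ q = x5) → p ≠ q → G3.Adj p q := by
    intro p q hp hq hpq
    obtain ⟨u, hu⟩ := exists_avoid_list [r, h, x1, x2, x3, x4, x5] (by simp; omega)
    simp only [List.mem_cons, List.not_mem_nil, or_false, not_or] at hu
    obtain ⟨w, hw⟩ := exists_avoid_list [r, h, x1, x2, x3, x4, x5, u] (by simp; omega)
    simp only [List.mem_cons, List.not_mem_nil, or_false, not_or] at hw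
    obtain ⟨t, ht⟩ := exists_avoid_list [r, h, x1, x2, x3, x4, x5, u, w] (by simp; omega)
    simp only [List.mem_cons, List.not_mem_nil, or_false, not_or] at ht
    have huS : S u := hu
    have hwS : S w := ⟨hw.1, hw.2.1, hw.2.2.1, hw.2.2.2.1, hw.2.2.2.2.1, hw.2.2.2.2.2.1,
      hw.2.2.2.2.2.2.1⟩
    have htS : S t := ⟨ht.1, ht.2.1, ht.2.2.1, ht.2.2.2.1, ht.2.2.2.2.1, ht.2.2.2.2.2.1,
      ht.2.2.2.2.2.2.1⟩
    have hqu : G2.Adj q u := by
      rcases hq with rfl | rfl | rfl | rfl | rfl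
      · exact (s4 u huS).symm
      · exact (l2 (s1 u huS)).symm
      · exact (s6 u huS).symm
      · exact (l2 (s2 u huS)).symm
      · exact (s5 u huS).symm
    have huw : G2.Adj u w := s3 u w huS hwS (by grind)
    have hwt : G2.Adj w t := s3 w t hwS htS (by grind)
    apply rule5 hr2 hh2 hrh hV8 (p1 := p) (p2 := q) (p3 := u) (p4 := w) (p5 := t) _ hqu huw hwt
    simp only [List.nodup_cons, List.mem_cons, List.not_mem_nil, or_false, not_or,
      not_false_eq_true, List.nodup_nil, and_true]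
    grind
  have s8 : ∀ z p, S z → (p = x1 ∨ p = x2 ∨ p = x3 ∨ p = x4 ∨ p = x5) → G3.Adj z p := by
    intro z p hz hp
    rcases hp with rfl | rfl | rfl | rfl | rfl
    · exact l3 (s4 z hz)
    · exact l3 (l2 (s1 z hz))
    · exact l3 (s6 z hz)
    · exact l3 (l2 (s2 z hz))
    · exact l3 (s5 z hz)
  rw [eq_top_iff]
  intro p q hpq
  rw [top_adj] at hpq
  by_cases hpr : p = r
  · subst hpr; exact hr3 q hpq.symm
  by_cases hqr : q = r
  · subst hqr; exact (hr3 p hpq).symm
  by_cases hph : p = h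
  · subst hph; exact hh3 q hpq.symm
  by_cases hqh : q = h
  · subst hqh; exact (hh3 p hpq).symm
  by_cases hp : p = x1 ∨ p = x2 ∨ p = x3 ∨ p = x4 ∨ p = x5
  · by_cases hq : q = x1 ∨ q = x2 ∨ q = x3 ∨ q = x4 ∨ q = x5
    · exact s7 p q hp hq hpq
    · push Not at hq
      exact (s8 q p ⟨hqr, hqh, hq⟩ hp).symm
  · push Not at hp
    by_cases hq : q = x1 ∨ q = x2 ∨ q = x3 ∨ q = x4 ∨ q = x5
    · exact s8 p q ⟨hpr, hph, hp⟩ hq
    · push Not at hq
      exact l3 (s3 p q ⟨hpr, hph, hp⟩ ⟨hqr, hqh, hq⟩ hpq)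

/-- From a wheel with hub `h`, a path on five vertices avoiding `h` and any given `r ≠ h`. -/
theorem path_of_hub {G : SimpleGraph V} {r h : V} (hrh : r ≠ h) (hh : HubAt G h) :
    ∃ x1 x2 x3 x4 x5, [r, h, x1, x2, x3, x4, x5].Nodup ∧ G.Adj x1 x2 ∧ G.Adj x2 x3 ∧
      G.Adj x3 x4 ∧ G.Adj x4 x5 := by
  obtain ⟨v, hv, ha⟩ := hh
  -- an index `i` such that `r` is not among `v (i+1), …, v (i+5)`
  obtain ⟨i, hi⟩ : ∃ i, ∀ j, j ≠ i → r ≠ v j := by
    by_cases hr : ∃ i, r = v i
    · obtain ⟨i, rfl⟩ := hr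
      exact ⟨i, fun j hj => hv.ne hj.symm⟩
    · push Not at hr
      exact ⟨0, fun j _ => hr j⟩
  refine ⟨v (i + 1), v (i + 2), v (i + 3), v (i + 4), v (i + 5), ?_, ?_, ?_, ?_, ?_⟩
  · have hh' : ∀ j, h ≠ v j := fun j => (ha j).1.ne
    have k : [v (i + 1), v (i + 2), v (i + 3), v (i + 4), v (i + 5)].Nodup := by
      have : [v (i + 1), v (i + 2), v (i + 3), v (i + 4), v (i + 5)] =
          [i + 1, i + 2, i + 3, i + 4, i + 5].map v := rfl
      rw [this]
      apply List.Nodup.map hv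
      clear * -; revert i; decide
    rw [List.nodup_cons, List.nodup_cons]
    refine ⟨?_, ?_, k⟩
    · simp only [List.mem_cons, List.not_mem_nil, or_false, not_or]
      refine ⟨hrh, ?_, ?_, ?_, ?_, ?_⟩ <;> apply hi <;> clear * - <;> revert i <;> decide
    · simp only [List.mem_cons, List.not_mem_nil, or_false, not_or]
      exact ⟨hh' _, hh' _, hh' _, hh' _, hh' _⟩
  · have := (ha (i + 1)).2
    rwa [add_assoc] at this
  · have := (ha (i + 2)).2
    rwa [add_assoc] at this
  · have := (ha (i + 3)).2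
    rwa [add_assoc] at this
  · have := (ha (i + 4)).2
    rwa [add_assoc] at this

/-- The running time of the process for the wheel with a pendant edge is logarithmic. -/
theorem pwheel_runningTime_le [Fintype V] (hV : 10 ≤ Fintype.card V) {s : ℕ}
    (hs : Fintype.card V ≤ 5 ^ s) (G : SimpleGraph V) : runningTime pwheel G ≤ s + 210 := by
  have hV8 : 8 ≤ Fintype.card V := by omega
  by_cases h01 : process pwheel G 0 = process pwheel G 1
  · exact (runningTime_le pwheel G (t := 0) h01).trans (Nat.zero_le _)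
  have hmono := process_mono pwheel G
  obtain ⟨r, hr1⟩ : ∃ r, HubAt (process pwheel G 1) r := by
    apply hubAt_of_ne
    intro h
    exact h01 h.symm
  have hr : ∀ t, 2 ≤ t → Univ (process pwheel G t) r := by
    intro t ht
    exact (univ_of_hubAt hr1).mono (hmono ht)
  have hsucc : ∀ t, process pwheel G (t + 1) = infect pwheel (process pwheel G t) :=
    process_succ pwheel G
  by_cases hcase : ∃ h, h ≠ r ∧ HubAt (process pwheel G (s + 203)) h
  · obtain ⟨h, hhr, hh⟩ := hcase
    obtain ⟨x1, x2, x3, x4, x5, hn, a1, a2, a3, a4⟩ := path_of_hub hhr.symm hh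
    have hle : process pwheel G (s + 203) ≤ process pwheel G (s + 204) := hmono (by omega)
    have htop := two_univ (hr (s + 204) (by omega))
      (by rw [hsucc (s + 203)]; exact univ_of_hubAt hh) hhr.symm hV hn (hle a1) (hle a2) (hle a3)
      (hle a4)
    rw [← hsucc, ← hsucc, ← hsucc] at htop
    have hst : process pwheel G (s + 204 + 1 + 1 + 1) =
        process pwheel G (s + 204 + 1 + 1 + 1 + 1) := by
      apply le_antisymm (hmono (Nat.le_succ _))
      rw [htop]
      exact le_top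
    have := runningTime_le pwheel G hst
    omega
  · push Not at hcase
    have hnohub : ∀ t, t ≤ s + 203 → ∀ h, h ≠ r → ¬ HubAt (process pwheel G t) h := by
      intro t ht h hhr hh
      exact hcase h hhr (hh.mono (hmono ht))
    have hnew : ∀ t, 2 ≤ t → t ≤ s + 202 → ∀ x y, (process pwheel G (t + 1)).Adj x y →
        ¬ (process pwheel G t).Adj x y → P6 (del r (process pwheel G t)) x y := by
      intro t ht1 ht2 x y hxy hn
      rw [hsucc] at hxy
      have hle := sup_edge_le_infect hxy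
      rcases (infect_adj _ _ _ _).1 hxy with h1 | ⟨hne, -, hU⟩
      · exact absurd h1 hn
      · rcases P6_or_hub (hr t ht1) hne hn hU with h2 | ⟨h, hhr, hh⟩
        · exact h2
        · exfalso
          apply hnohub (t + 1) (by omega) h hhr
          rw [hsucc]
          exact hh.mono hle
    have hdel : ∀ t, 2 ≤ t → t ≤ s + 202 →
        del r (process pwheel G (t + 1)) = c6 (del r (process pwheel G t)) := by
      intro t ht1 ht2
      ext x y
      rw [del_adj, c6_adj]
      constructor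
      · rintro ⟨h1, h2, h3⟩
        by_cases hxy : (process pwheel G t).Adj x y
        · exact Or.inl ⟨hxy, h2, h3⟩
        · exact Or.inr (hnew t ht1 ht2 x y h1 hxy)
      · rintro (h1 | h1)
        · exact ⟨hmono (Nat.le_succ t) h1.1, h1.2⟩
        · refine ⟨?_, ?_, ?_⟩
          · rw [hsucc]
            exact infect_of_P6 (hr t ht1) hV8 h1
          · obtain ⟨a, b, c, d, h1, -⟩ := h1
            exact h1.2.1
          · obtain ⟨a, b, c, d, -, -, -, -, h5, -⟩ := h1
            exact h5.2.2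
    have hiter : ∀ j, j ≤ s + 200 →
        del r (process pwheel G (2 + j)) = c6^[j] (del r (process pwheel G 2)) := by
      intro j
      induction j with
      | zero => intro _; rfl
      | succ j ih =>
        intro hj
        rw [c6_iter_succ, ← ih (by omega), ← Nat.add_assoc]
        exact hdel (2 + j) (by omega) (by omega)
    have hst : process pwheel G (2 + (s + 200)) = process pwheel G (2 + (s + 200) + 1) := by
      apply le_antisymm (hmono (Nat.le_succ _))
      intro x y hxy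
      by_contra hn
      have h1 := hnew (2 + (s + 200)) (by omega) (by omega) x y hxy hn
      rw [hiter (s + 200) le_rfl] at h1
      have h2 := c6_main (del r (process pwheel G 2)) hs x y h1
      rw [← hiter (s + 200) le_rfl] at h2
      exact hn h2.1
    have := runningTime_le pwheel G hst
    omega

end Pool.Agent.MP_7332c2_co
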