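import Pool.Agent.MP_7332c2_co.C6Main

open SimpleGraph

namespace Pool.Agent.MP_7332c2_co

variable {V : Type*}

/-- The wheel `W_6`: the hub is `none`, the rim is the cycle on `Fin 6`. -/
def wheel : SimpleGraph (Option (Fin 6)) where
  Adj x y :=
    match x, y with
    | none, none => False
    | none, some _ => True
    | some _, none => True
    | some i, some j => j = i + 1 ∨ i = j + 1
  symm := ⟨by
    rintro (_ | i) (_ | j) h
    · exact h
    · exact h
    · exact h
    · exact h.symm⟩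
  loopless := ⟨by
    rintro (_ | i) h
    · exact h
    · rcases h with h | h <;> · revert h; fin_cases i <;> decide⟩

theorem wheel_adj_hub (i : Fin 6) : wheel.Adj none (some i) := trivial

theorem wheel_adj_rim (i : Fin 6) : wheel.Adj (some i) (some (i + 1)) := Or.inl rfl

theorem wheel_connected : wheel.Connected := by
  have h : ∀ x, wheel.Reachable none x := by
    rintro (_ | i)
    · exact Reachable.refl _
    · exact (wheel_adj_hub i).reachable
  exact ⟨fun x y => (h x).symm.trans (h y)⟩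

/-- `W_6` with a pendant edge at the hub. -/
abbrev pwheel : SimpleGraph (Option (Option (Fin 6))) := addPendant wheel none

/-- `h` is the hub of a copy of `W_6`. -/
def HubAt (G : SimpleGraph V) (h : V) : Prop :=
  ∃ v : Fin 6 → V, Function.Injective v ∧ ∀ i, G.Adj h (v i) ∧ G.Adj (v i) (v (i + 1))

theorem HubAt.mono {G G' : SimpleGraph V} (hle : G ≤ G') {h : V} (hh : HubAt G h) :
    HubAt G' h := by
  obtain ⟨v, hv, ha⟩ := hh
  exact ⟨v, hv, fun i => ⟨hle (ha i).1, hle (ha i).2⟩⟩

/-- The wheel homomorphism with hub `h` and rim `v`. -/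
theorem exists_wheel_copy {G : SimpleGraph V} {h : V} {v : Fin 6 → V}
    (hv : Function.Injective v) (hs : ∀ i, G.Adj h (v i)) (hr : ∀ i, G.Adj (v i) (v (i + 1))) :
    ∃ f : wheel.Copy G, f none = h ∧ ∀ i, f (some i) = v i := by
  refine ⟨⟨⟨fun x => x.elim h v, ?_⟩, ?_⟩, rfl, fun i => rfl⟩
  · rintro (_ | i) (_ | j) hij
    · exact absurd hij id
    · exact hs j
    · exact (hs i).symm
    · rcases hij with rfl | rfl
      · exact hr i
      · exact (hr j).symm
  · rintro (_ | i) (_ | j) hij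
    · rfl
    · exact absurd hij (hs j).ne
    · exact absurd hij (hs i).ne'
    · exact congrArg some (hv hij)

theorem exists_pwheel_copy {G : SimpleGraph V} {h w : V} {v : Fin 6 → V}
    (hv : Function.Injective v) (hs : ∀ i, G.Adj h (v i)) (hr : ∀ i, G.Adj (v i) (v (i + 1)))
    (hw : G.Adj h w) (hwv : ∀ i, w ≠ v i) :
    ∃ f : pwheel.Copy G, f none = w ∧ f (some none) = h ∧ ∀ i, f (some (some i)) = v i := by
  obtain ⟨g, hg1, hg2⟩ := exists_wheel_copy hv hs hr
  refine ⟨⟨⟨fun x => x.elim w g, ?_⟩, ?_⟩, rfl, hg1, fun i => hg2 i⟩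
  · rintro (_ | x) (_ | y) hxy
    · exact absurd hxy id
    · have : y = none := hxy
      subst this
      show G.Adj w (g none)
      rw [hg1]; exact hw.symm
    · have : x = none := hxy
      subst this
      show G.Adj (g none) w
      rw [hg1]; exact hw
    · exact g.toHom.map_adj hxy
  · rintro (_ | x) (_ | y) hxy
    · rfl
    · exfalso
      have hxy' : w = g y := hxy
      rcases y with _ | i
      · rw [hg1] at hxy'; exact hw.ne hxy'.symm
      · rw [hg2] at hxy'; exact hwv i hxy'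
    · exfalso
      have hxy' : g x = w := hxy
      rcases x with _ | i
      · rw [hg1] at hxy'; exact hw.ne hxy'
      · rw [hg2] at hxy'; exact hwv i hxy'.symm
    · exact congrArg some (g.injective hxy)

theorem uses_wheel_rim {G : SimpleGraph V} {h : V} {v : Fin 6 → V}
    (hv : Function.Injective v) (hs : ∀ i, G.Adj h (v i))
    (hr : ∀ i, i ≠ 5 → G.Adj (v i) (v (i + 1))) : Uses wheel G (v 5) (v 0) := by
  have hle : G ≤ G ⊔ edge (v 5) (v 0) := le_sup_left
  obtain ⟨f, hf1, hf2⟩ := exists_wheel_copy (G := G ⊔ edge (v 5) (v 0)) hv (fun i => hle (hs i))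
    (by
      intro i
      by_cases hi : i = 5
      · subst hi
        exact Or.inr (by rw [edge_adj]; exact ⟨Or.inl ⟨rfl, rfl⟩, hv.ne (by decide)⟩)
      · exact hle (hr i hi))
  exact ⟨f, some 5, some 0, Or.inl rfl, hf2 5, hf2 0⟩

theorem uses_pwheel_rim {G : SimpleGraph V} {h w : V} {v : Fin 6 → V}
    (hv : Function.Injective v) (hs : ∀ i, G.Adj h (v i))
    (hr : ∀ i, i ≠ 5 → G.Adj (v i) (v (i + 1))) (hw : G.Adj h w) (hwv : ∀ i, w ≠ v i) :
    Uses pwheel G (v 5) (v 0) := by
  have hle : G ≤ G ⊔ edge (v 5) (v 0) := le_sup_left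
  obtain ⟨f, hf0, hf1, hf2⟩ := exists_pwheel_copy (G := G ⊔ edge (v 5) (v 0)) hv
    (fun i => hle (hs i))
    (by
      intro i
      by_cases hi : i = 5
      · subst hi
        exact Or.inr (by rw [edge_adj]; exact ⟨Or.inl ⟨rfl, rfl⟩, hv.ne (by decide)⟩)
      · exact hle (hr i hi)) (hle hw) hwv
  exact ⟨f, some (some 5), some (some 0), Or.inl rfl, hf2 5, hf2 0⟩

theorem uses_pwheel_pendant {G : SimpleGraph V} {h w : V} {v : Fin 6 → V}
    (hv : Function.Injective v) (hs : ∀ i, G.Adj h (v i)) (hr : ∀ i, G.Adj (v i) (v (i + 1)))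
    (hhw : h ≠ w) (hwv : ∀ i, w ≠ v i) : Uses pwheel G h w := by
  have hle : G ≤ G ⊔ edge h w := le_sup_left
  obtain ⟨f, hf0, hf1, hf2⟩ := exists_pwheel_copy (G := G ⊔ edge h w) (h := h) (w := w) hv
    (fun i => hle (hs i)) (fun i => hle (hr i))
    (Or.inr (by rw [edge_adj]; exact ⟨Or.inl ⟨rfl, rfl⟩, hhw⟩)) hwv
  exact ⟨f, some none, none, rfl, hf1, hf0⟩

theorem pwheel_elim {G : SimpleGraph V} (f : pwheel.Copy G) :
    Function.Injective (fun i : Fin 6 => f (some (some i))) ∧
      (∀ i, G.Adj (f (some none)) (f (some (some i)))) ∧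
      (∀ i : Fin 6, G.Adj (f (some (some i))) (f (some (some (i + 1))))) := by
  refine ⟨?_, ?_, ?_⟩
  · intro i j hij
    have := f.injective hij
    simpa using this
  · intro i
    exact f.toHom.map_adj (show pwheel.Adj (some none) (some (some i)) from trivial)
  · intro i
    exact f.toHom.map_adj (show pwheel.Adj (some (some i)) (some (some (i + 1))) from Or.inl rfl)

theorem uses_pwheel_elim {G : SimpleGraph V} {x y : V} (hU : Uses pwheel G x y) :
    ∃ (h : V) (v : Fin 6 → V), Function.Injective v ∧ (∀ i, (G ⊔ edge x y).Adj h (v i)) ∧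
      (∀ i, (G ⊔ edge x y).Adj (v i) (v (i + 1))) ∧
      ((x = h ∨ y = h) ∨ ∃ i, (v i = x ∧ v (i + 1) = y) ∨ (v i = y ∧ v (i + 1) = x)) := by
  obtain ⟨f, a, b, hab, hfa, hfb⟩ := hU
  obtain ⟨h1, h2, h3⟩ := pwheel_elim f
  refine ⟨f (some none), fun i => f (some (some i)), h1, h2, h3, ?_⟩
  rcases a with _ | _ | i
  · rcases b with _ | _ | j
    · exact absurd hab id
    · exact Or.inl (Or.inr hfb.symm)
    · exact absurd hab (by intro h; exact Option.some_ne_none j h)
  · exact Or.inl (Or.inl hfa.symm)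
  · rcases b with _ | _ | j
    · exact absurd hab (by intro h; exact Option.some_ne_none i h)
    · exact Or.inl (Or.inr hfb.symm)
    · right
      rcases hab with rfl | rfl
      · exact ⟨i, Or.inl ⟨hfa, hfb⟩⟩
      · exact ⟨j, Or.inr ⟨hfb, hfa⟩⟩

theorem uses_wheel_elim {G : SimpleGraph V} {x y : V} (hU : Uses wheel G x y) :
    ∃ (h : V) (v : Fin 6 → V), Function.Injective v ∧ (∀ i, (G ⊔ edge x y).Adj h (v i)) ∧
      (∀ i, (G ⊔ edge x y).Adj (v i) (v (i + 1))) ∧
      ((∃ i, (x = h ∧ y = v i) ∨ (y = h ∧ x = v i)) ∨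
        ∃ i, (v i = x ∧ v (i + 1) = y) ∨ (v i = y ∧ v (i + 1) = x)) := by
  obtain ⟨f, a, b, hab, hfa, hfb⟩ := hU
  refine ⟨f none, fun i => f (some i), ?_, ?_, ?_, ?_⟩
  · intro i j hij
    have := f.injective hij
    simpa using this
  · intro i
    exact f.toHom.map_adj (wheel_adj_hub i)
  · intro i
    exact f.toHom.map_adj (wheel_adj_rim i)
  · rcases a with _ | i
    · rcases b with _ | j
      · exact absurd hab id
      · exact Or.inl ⟨j, Or.inl ⟨hfa.symm, hfb.symm⟩⟩
    · rcases b with _ | j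
      · exact Or.inl ⟨i, Or.inr ⟨hfb.symm, hfa.symm⟩⟩
      · right
        rcases hab with rfl | rfl
        · exact ⟨i, Or.inl ⟨hfa, hfb⟩⟩
        · exact ⟨j, Or.inr ⟨hfb, hfa⟩⟩

end Pool.Agent.MP_7332c2_co
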